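import Pool.Agent.MP_8ec908_lc.H18.Defs2

namespace Pool.Agent.MP_8ec908_lc.H65

open Pool.Agent.MP_8ec908_lc.Defs Pool.Agent.MP_8ec908_lc.H18

/-- The formula `S t ≠ t`. -/
def NN (t : Tm) : Fm := neg (.eq (succ t) t)

/-- Relativization of all quantifiers to `NN`. -/
def relN : Fm → Fm
  | .imp a b => .imp (relN a) (relN b)
  | .all x a => .all x (.imp (NN (.var x)) (relN a))
  | a => a

/-- `NN` is closed under the operation `f`. -/
def cutN (f : Tm → Tm → Tm) : Fm :=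
  .all 0 (.all 1 (.imp (NN (.var 0)) (.imp (NN (.var 1)) (NN (f (.var 0) (.var 1))))))

/-- No proof of a contradiction from `A` in the language of arithmetic has length at most `n`,
the length of a line being measured by `l`. -/
def NoRef (l : Fm → ℕ) (A : List Fm) (n : ℕ) : Prop :=
  ¬ ∃ p, IsProof A p ∧ (∀ b ∈ p, ArF b) ∧ Fm.bot ∈ p ∧ (p.map l).sum ≤ n

/-- A numeration of finite consistency for the arithmetic theories `Q + a`. -/
structure Numer (ν : ℕ → Tm) (l : Fm → ℕ) (g : Fm → ℕ) (C : Fm) : Prop where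
  primrec : ∃ h : List ℕ → ℕ, Primrec h ∧ ∀ a, g a = h a.str
  arith : ArF C
  fv : ∀ x, C.Free x → x = 0 ∨ x = 1
  correct : ∀ a : Fm, ArF a → a.Closed → ∀ n : ℕ,
    ((conN ν C (g a) n).Holds (fun _ => 0) ↔ NoRef l (Q ++ [a]) n)
  provable : ∀ a : Fm, ArF a → a.Closed → ∀ n : ℕ, NoRef l (Q ++ [a]) n →
    ∃ p, IsProof Q p ∧ conN ν C (g a) n ∈ p

end Pool.Agent.MP_8ec908_lc.H65
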