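import Pool.Agent.MP_8ec908_lc.H65.Val
import Pool.Agent.MP_8ec908_lc.H65.Defs

/-! The self-referential sentence and its consistency. -/

namespace Pool.Agent.MP_8ec908_lc.H65

open Pool.Agent.MP_8ec908_lc.Defs Pool.Agent.MP_8ec908_lc.H47 Pool.Agent.MP_8ec908_lc.H78
  Function Sum
open Pool.Agent.MP_8ec908_lc.H18 (Prov conj conjL sat)
open Pool.Agent.MP_8ec908_lc.H9 (PD)

/-- The name of the empty stack. -/
def k0 : ℕ := c0 + 9

theorem k0_ge : 19 ≤ k0 := by have := c0_ge; unfold k0; omega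

theorem sz_le_k0 {a : Fm} (h : a ∈ A0) : sz a ≤ k0 := (sz_le_c0 h).trans (Nat.le_add_right _ _)

/-- `16 · t` -/
def sc (t : Tm) : Tm := mul (num 2) (mul (num 2) (mul (num 2) (mul (num 2) t)))

def XP (t : Tm) : Fm := neg (Pe (sc t))

def GG (H : ℕ) (Z : Fm) (K : ℕ) : Fm := conjL (Ax0.map (trF H K)) Z

def body (H : ℕ) (Φ C : Fm) : Fm := .all 0 (.imp Φ (.all 1 (.imp (trF H k0 (XP (.var 1))) C)))

def fixF (H : ℕ) (Φ C : Fm) (c : ℕ) : Fm := .all 2 (.imp (.eq (.var 2) (num c)) (body H Φ C))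

def aa (H : ℕ) (Z Φ C : Fm) (c : ℕ) : Fm := ex k0 (conj (GG H Z k0) (fixF H Φ C c))

def TW (H : ℕ) (Z C : Fm) : Fm :=
  .all 1 (.imp (.all k0 (.imp (GG H Z k0) (trF H k0 (XP (.var 1))))) C)

theorem free_XP {t : Tm} {x : ℕ} : (XP t).Free x ↔ t.Occ x := by simp [XP, free_Pe, sc]

theorem XP_subst (t : Tm) (x : ℕ) (u : Tm) : (XP t).subst x u = XP (t.subst x u) := by
  simp [XP, H18.pe_subst, sc]

theorem ar_conj {a b : Fm} (ha : ArF a) (hb : ArF b) : ArF (conj a b) :=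
  .imp _ _ (.imp _ _ ha (.imp _ _ hb .bot)) .bot

theorem rank_conj (a b : Fm) : (conj a b).rank = max a.rank b.rank := by
  simp [conj, neg, Fm.rank]

section
variable {L : List Fm} {z : Fm}

theorem ar_conjL (hL : ∀ a ∈ L, ArF a) (hz : ArF z) : ArF (conjL L z) := by
  induction L with
  | nil => exact hz
  | cons a L ih => exact ar_conj (hL a (by simp)) (ih fun b hb => hL b (by simp [hb]))

theorem free_conjL {x : ℕ} (h : (conjL L z).Free x) : (∃ a ∈ L, a.Free x) ∨ z.Free x := by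
  induction L with
  | nil => exact Or.inr h
  | cons a L ih =>
    rcases (H9.free_conj _ _ _).1 h with h | h
    · exact Or.inl ⟨a, by simp, h⟩
    · exact (ih h).imp_left fun ⟨b, hb, h⟩ => ⟨b, by simp [hb], h⟩

theorem rank_conjL : z.rank ≤ (conjL L z).rank := by
  induction L with
  | nil => exact le_rfl
  | cons a L ih => exact ih.trans ((le_max_right _ _).trans (rank_conj _ _).ge)

theorem pd_left {A Γ : List Fm} {a b : Fm} (h : PD A Γ (conj a b)) : PD A Γ a :=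
  PD.byContra (.mp h.weak (PD.intro (PD.efq (.mp PD.h1 PD.h0))))

theorem pd_right {A Γ : List Fm} {a b : Fm} (h : PD A Γ (conj a b)) : PD A Γ b :=
  PD.byContra (.mp h.weak (PD.intro PD.h1))

theorem pd_conjL {A Γ : List Fm} (h : PD A Γ (conjL L z)) : (∀ a ∈ L, PD A Γ a) ∧ PD A Γ z := by
  induction L with
  | nil => exact ⟨by simp, h⟩
  | cons a L ih =>
    exact ⟨List.forall_mem_cons.2 ⟨pd_left h, (ih (pd_right h)).1⟩, (ih (pd_right h)).2⟩

theorem sat_conj {P : PW} {a b : Fm} {v : ℕ → P.D} {w : P.Ω} :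
    P.Sat (conj a b) v w ↔ P.Sat a v w ∧ P.Sat b v w := by
  simp [conj]

theorem sat_conjL {P : PW} {v : ℕ → P.D} {w : P.Ω} (hL : ∀ a ∈ L, P.Sat a v w)
    (hz : P.Sat z v w) : P.Sat (conjL L z) v w := by
  induction L with
  | nil => exact hz
  | cons a L ih => exact sat_conj.2 ⟨hL a (by simp), ih fun b hb => hL b (by simp [hb])⟩

end

theorem free_GG {H K x : ℕ} {Z : Fm} (hZ : Z.Closed) (h : (GG H Z K).Free x) : K = x := by
  rcases free_conjL h with ⟨_, ha, h⟩ | h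
  · obtain ⟨b, hb, rfl⟩ := List.mem_map.1 ha
    exact (free_trF h).resolve_right (H18.ax0_closed b hb x)
  · exact (hZ x h).elim

theorem free_fix {H c x : ℕ} {Φ C : Fm} (hΦ : ∀ x, Φ.Free x → x = 0 ∨ x = 2)
    (hC : ∀ x, C.Free x → x = 0 ∨ x = 1) (h : (fixF H Φ C c).Free x) : k0 = x := by
  simp only [fixF, body, H9.free_all, H9.free_imp, H9.free_eq, H9.occ_var, H9.occ_num] at h
  obtain ⟨h2, (h | h) | ⟨h0, h | ⟨h1, h | h⟩⟩⟩ := h
  · exact (h2 h).elim
  · exact h.elim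
  · have := hΦ x h; omega
  · exact (free_trF h).resolve_right fun h => h1 (free_XP.1 h)
  · have := hC x h; omega

theorem aa_str (H : ℕ) (Z Φ C : Fm) : ∃ L1 L2 : List ℕ, ∀ c,
    (aa H Z Φ C c).str = L1 ++ (num c).str ++ L2 :=
  ⟨7 :: 8 :: (idx k0 ++ 7 :: 7 :: 7 :: ((GG H Z k0).str ++ [7, 8, 1, 1, 0, 7, 5, 2, 1, 1, 0])),
    (body H Φ C).str ++ [4, 4, 4, 4], fun c => by
      simp [aa, ex, conj, neg, fixF, Fm.str, Tm.str, idx, List.replicate]⟩

theorem NN_subst (t : Tm) (x : ℕ) (u : Tm) : (NN t).subst x u = NN (t.subst x u) := by simp [NN]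

theorem ar_NN {t : Tm} (h : ArT t) : ArF (NN t) := .imp _ _ (.eq _ _ (.succ _ h) h) .bot

theorem prov_NN (m : ℕ) : Prov Q (NN (num m)) := by
  induction m with
  | zero => exact H9.q1 (fun _ h => h) _
  | succ m ih => exact H18.Prov.comp (H9.q2 (fun _ h => h) _ _) ih

section
variable {U : Type} {H : ℕ} {β : Core U → ℕ}

theorem sat_NN (v : ℕ → El U) (t : Tm) : sat (MM H β) v (NN t) ↔ IsE (H18.ev (MM H β) v t) :=
  dS_ne _

theorem sat_tr (φ : H9.S1) : ∀ σ (v : ℕ → El U),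
    sat (MM H β) v (H9.tr NN σ φ) ↔ sat (MM H β) v (H9.tr NatR σ φ) := by
  induction φ with
  | eq s t => intros; rfl
  | and a b ih1 ih2 => intro σ v; simp only [H9.tr, conj, neg, sat, ih1, ih2]
  | or a b ih1 ih2 => intro σ v; simp only [H9.tr, neg, sat, ih1, ih2]
  | ex x a ih =>
    intro σ v
    have h : ∀ w, sat (MM H β) w (NN (.var x)) ↔ sat (MM H β) w (NatR (.var x)) := fun w =>
      (sat_NN w _).trans (H9.sat_nat (mm_std H β) w x).symm
    simp only [H9.tr, ex, conj, neg, sat, ih, h]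
  | ball x y _ a ih => intro σ v; simp only [H9.tr, sat, ih]

theorem ev_val {t : Tm} (ht : ArT t) {v : ℕ → El U} {w : ℕ → ℕ}
    (h : ∀ x, t.Occ x → v x = inl (inl (w x))) : H18.ev (MM H β) v t = inl (inl (t.val w)) := by
  induction ht with
  | var i => exact h i rfl
  | zero => rfl
  | succ t _ ih => rw [mm_succ, ih fun x hx => h x ⟨0, hx⟩]; rfl
  | add s t _ _ ih1 ih2 =>
    rw [mm_add, ih1 fun x hx => h x ⟨0, hx⟩, ih2 fun x hx => h x ⟨1, hx⟩]; rfl
  | mul s t _ _ ih1 ih2 =>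
    rw [mm_mul, ih1 fun x hx => h x ⟨0, hx⟩, ih2 fun x hx => h x ⟨1, hx⟩]; rfl

theorem sat_relN {φ : Fm} (hφ : ArF φ) : ∀ {v : ℕ → El U} {w : ℕ → ℕ},
    (∀ x, φ.Free x → v x = inl (inl (w x))) → (sat (MM H β) v (relN φ) ↔ φ.Holds w) := by
  induction hφ with
  | bot => intros; rfl
  | eq s t hs ht =>
    intro v w h
    simp only [relN, sat, Fm.Holds]
    rw [ev_val hs fun x hx => h x (Or.inl hx), ev_val ht fun x hx => h x (Or.inr hx)]
    simp
  | imp a b _ _ ih1 ih2 =>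
    intro v w h
    exact imp_congr (ih1 fun x hx => h x (Or.inl hx)) (ih2 fun x hx => h x (Or.inr hx))
  | all y a _ ih =>
    intro v w h
    have h1 : ∀ m : ℕ, sat (MM H β) (update v y (inl (inl m))) (relN a) ↔ a.Holds (update w y m) :=
      fun m => ih fun x hx => by
        by_cases hxy : x = y
        · subst hxy; simp
        · rw [update_of_ne hxy, update_of_ne hxy]; exact h x ⟨Ne.symm hxy, hx⟩
    refine ⟨fun h2 m => (h1 m).1 (h2 _ ((sat_NN _ _).2 ⟨m, update_self ..⟩)), fun h2 d hd => ?_⟩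
    obtain ⟨m, hm⟩ := (sat_NN _ _).1 hd
    obtain rfl : d = inl (inl m) := by simpa [H18.ev] using hm
    exact (h1 m).2 (h2 m)

end

/-- Guarded arithmetic definition of the graph of a primitive recursive function. -/
theorem graphN {F : ℕ → ℕ} (hF : Primrec F) : ∃ Φ : Fm, ArF Φ ∧ (∀ x, Φ.Free x → x = 0 ∨ x = 2) ∧
    (∀ c, Prov Q (((conj (NN (.var 0)) Φ).subst 2 (num c)).subst 0 (num (F c)))) ∧
    ∀ (U : Type) (H : ℕ) (β : Core U → ℕ) (v : ℕ → El U) (c y : ℕ), v 2 = inl (inl c) →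
      v 0 = inl (inl y) → sat (MM H β) v Φ → y = F c := by
  obtain ⟨φ, h1, h2⟩ := H9.graph_def hF 2 0
  refine ⟨H9.tr NN (fun _ => none) φ,
    H9.tr_class ArF .bot .eq .imp .all (fun x => ar_NN (.var x)) φ _,
    fun x hx => h1 x (H9.tr_free (fun t w h => by simpa [NN] using h) φ hx), fun c => ?_, ?_⟩
  · rw [H9.subst_conj, H9.subst_conj, NN_subst, NN_subst, H9.tr_subst NN_subst c 2 φ rfl,
      H9.tr_subst NN_subst (F c) 0 φ (by simp)]
    refine H9.pConj (by simpa using prov_NN (F c)) ?_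
    rw [H9.tr_congr NN φ (τ := fun i => some (if i = 0 then F c else c))]
    · exact H9.complete (fun a ha => ha) NN_subst prov_NN φ _ ((h2 _).mpr (by simp))
    · intro w hw
      rcases h1 w hw with rfl | rfl <;> simp
  · intro U H β v c y hv hy hs
    have := H9.absolute (mm_std H β) φ v (fun i => if i = 0 then y else c) (fun i hi => by
      rcases h1 i hi with rfl | rfl <;> simp [hy, hv]) ((sat_tr φ _ v).1 hs)
    rw [h2] at this
    simpa using this

theorem transfer_num {H n0 s : ℕ} {φ : Fm} (hφ : ArF φ) (hs : sz φ ≤ s) (hH : 9 + 2 ^ s * s < H)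
    (hr : φ.rank ≤ n0) {v : ℕ → El (UU (2 * (16 * n0) + 1))} {a : Co}
    (hg : GoodC (∅ : Set (TE (2 * (16 * n0) + 1))) a) (hv : ∀ i, φ.Free i → IsE (v i)) :
    (PX H (16 * n0)).Sat φ v a ↔ sat (MM H (βa (16 * n0) 0)) v φ := by
  have h1 : ∀ {s} {y : El (UU (2 * (16 * n0) + 1))},
      ¬ (inr s = y ∧ ∃ i, φ.Free i ∧ v i = inr s) := by
    rintro s y ⟨-, i, hi, h⟩
    obtain ⟨n, hn⟩ := hv i hi
    cases hn.symm.trans h
  refine transfer hφ (R := fun x y => x = y ∧ ∃ i, φ.Free i ∧ v i = x) hs (Nat.mul_le_mul_right _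
    (Nat.pow_le_pow_right (by omega) ((rank_le_sz φ).trans hs))) hH
    ⟨fun _ _ h => Or.inl h.1, fun _ _ _ _ h => (h1 h).elim, fun _ _ _ _ _ _ _ _ h => (h1 h).elim⟩
    ?_ ?_ hg ?_ fun i hi => ⟨rfl, i, hi, rfl⟩
  · obtain ⟨N, hN⟩ := H9.fm_fresh φ
    refine ((Set.finite_lt_nat N).image fun i => (v i, v i)).subset ?_
    rintro ⟨x, y⟩ ⟨h2, i, hi, h3⟩
    exact ⟨i, lt_of_not_ge fun h => hN i h hi, Prod.ext h3 (h3.trans h2)⟩
  · rintro x y ⟨-, i, hi, rfl⟩
    obtain ⟨n, hn⟩ := hv i hi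
    rw [hn]
    exact subset_rfl
  · rw [Set.encard_empty, zero_add]
    show (16 * φ.rank : ℕ∞) < ((2 * (16 * n0) + 1 : ℕ) : ℕ∞)
    exact_mod_cast (by omega)

theorem dbl_num {U : Type} {H : ℕ} {β : Core U → ℕ} {d : El U} {x : ℕ}
    (h : dMul H β (inl (inl 2)) d = inl (inl x)) : ∃ y, d = inl (inl y) ∧ x = 2 * y := by
  rcases d with (y | u) | s
  · exact ⟨y, rfl, (inl.inj (inl.inj h)).symm⟩
  · cases h
  · cases h

theorem valid_aa {H n0 s c y : ℕ} {Z Φ C : Fm} (hH : 9 + 2 ^ s * s < H)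
    (hZ : ArF Z ∧ Z.Closed ∧ sz Z ≤ s) (hΦ : ArF Φ ∧ (∀ x, Φ.Free x → x = 0 ∨ x = 2) ∧ sz Φ ≤ s)
    (hC : ArF C ∧ (∀ x, C.Free x → x = 0 ∨ x = 1) ∧ sz C ≤ s)
    (hr : (aa H Z (conj (NN (.var 0)) Φ) C c).rank ≤ n0)
    (sZ : ∀ v, sat (MM H (βa (m := 2 * (16 * n0) + 1) (16 * n0) 0)) v Z)
    (sΦ : ∀ v x, v 2 = inl (inl c) → v 0 = inl (inl x) →
      sat (MM H (βa (m := 2 * (16 * n0) + 1) (16 * n0) 0)) v Φ → x = y)
    (sC : ∀ v x, x < n0 → v 0 = inl (inl y) → v 1 = inl (inl x) →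
      sat (MM H (βa (m := 2 * (16 * n0) + 1) (16 * n0) 0)) v C) :
    (PX H (16 * n0)).Valid (aa H Z (conj (NN (.var 0)) Φ) C c) := by
  have hk := k0_ge
  have hH' : 9 < H := by omega
  have hZr : Z.rank ≤ (GG H Z k0).rank := rank_conjL
  simp only [aa, ex, neg, Fm.rank, rank_conj, fixF, body] at hr
  have hΦ' : ∀ x, (conj (NN (.var 0)) Φ).Free x → x = 0 ∨ x = 2 := fun x hx =>
    ((H9.free_conj _ _ _).1 hx).elim (fun h => Or.inl (by simpa [NN, eq_comm] using h)) (hΦ.2.1 x)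
  have hcl : (aa H Z (conj (NN (.var 0)) Φ) C c).Closed := fun x hx => by
    rw [aa, H9.free_ex, H9.free_conj] at hx
    exact hx.1 (hx.2.elim (free_GG hZ.2.1) (free_fix hΦ' hC.2.1))
  intro v a hg
  refine PW.sat_ex (P := PX H (16 * n0)) e0 hg ?_ fun a1 hg1 => ?_
  · rw [show ex k0 _ = aa H Z (conj (NN (.var 0)) Φ) C c from rfl, PW.Sf_closed hcl,
      Set.encard_empty, zero_add]
    show (16 : ℕ∞) < ((2 * (16 * n0) + 1 : ℕ) : ℕ∞)
    exact_mod_cast (by omega)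
  have hg0 := (PX H (16 * n0)).good_mono (Set.empty_subset _) hg1
  refine sat_conj.2 ⟨sat_conjL (fun _ hb => ?_) ?_, ?_⟩
  · obtain ⟨b, hb', rfl⟩ := List.mem_map.1 hb
    exact vk_Ax0 hH' hk (by omega) b hb' _ (update_self ..) a1 ∅
      (fun x hx => (H18.ax0_closed b hb' x hx).elim) hg0
  · exact (transfer_num hZ.1 hZ.2.2 hH (by omega) hg0 fun i hi => (hZ.2.1 i hi).elim).2 (sZ _)
  intro d2 a2 _ _ h2 d0 a3 hg3 _ h0 d1 a4 hg4 _ h1
  have e2 : d2 = inl (inl c) := by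
    rw [PW.sat_eq, PX_ev, PX_ev, H18.ev_num _ (mm_std _ _)] at h2
    simpa [H18.ev] using h2
  obtain ⟨h3, h4⟩ := sat_conj.1 h0
  obtain ⟨x, hx⟩ : IsE d0 := by
    rw [NN, PW.sat_neg, PW.sat_eq, PX_ev, PX_ev] at h3
    simpa [H18.ev, IsE] using (dS_ne _).1 h3
  obtain rfl : x = y := by
    refine sΦ _ x (by simp [e2]) (by simp [hx]) ((transfer_num hΦ.1 hΦ.2.2 hH (by omega)
      ((PX H (16 * n0)).good_mono (Set.empty_subset _) hg3) fun i hi => ?_).1 h4)
    rcases hΦ.2.1 i hi with rfl | rfl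
    exacts [⟨x, by simp [hx]⟩, ⟨c, by simp [e2]⟩]
  have h5 := (SA_neg _).1 h1
  rw [SA_Pe hH' (by rw [update_of_ne (by omega), update_of_ne (by omega), update_of_ne (by omega),
    update_self])] at h5
  push Not at h5
  obtain ⟨z, hz, hlt⟩ := h5
  simp only [sc, EV_mul, EV_num] at hz
  obtain ⟨z1, hz1, rfl⟩ := dbl_num hz
  obtain ⟨z2, hz2, rfl⟩ := dbl_num hz1
  obtain ⟨z3, hz3, rfl⟩ := dbl_num hz2
  obtain ⟨z, hz4, rfl⟩ := dbl_num hz3
  have e1 : d1 = inl (inl z) := by rwa [EV_vr, update_self] at hz4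
  refine (transfer_num hC.1 hC.2.2 hH (by omega)
    ((PX H (16 * n0)).good_mono (Set.empty_subset _) hg4) fun i hi => ?_).2
    (sC _ z (by omega) (by simp [hx]) (by simp [e1]))
  rcases hC.2.1 i hi with rfl | rfl
  exacts [⟨x, by simp [hx]⟩, ⟨z, by simp [e1]⟩]

theorem core (l : Fm → ℕ) (hl : ∀ b, wd b ≤ l b) (g : Fm → ℕ) (C : Fm)
    (hprim : ∃ h : List ℕ → ℕ, Primrec h ∧ ∀ a, g a = h a.str) (har : ArF C)
    (hfv : ∀ x, C.Free x → x = 0 ∨ x = 1)
    (hprov : ∀ a : Fm, ArF a → a.Closed → ∀ n : ℕ, NoRef l (Q ++ [a]) n → Prov Q (con C (g a) n))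
    {Z : Fm} (hZ : ArF Z) (hZc : Z.Closed)
    (sZ : ∀ (U : Type) (H : ℕ) (β : Core U → ℕ) v, sat (MM H β) v Z) :
    ∃ a H, ArF a ∧ a.Closed ∧ (¬ ∃ p, IsProof (Q ++ [a]) p ∧ Fm.bot ∈ p) ∧ Prov (Q ++ [a]) Z ∧
      Prov (Q ++ [a]) (TW H Z (C.subst 0 (num (g a)))) := by
  classical
  obtain ⟨h, hh, hg⟩ := hprim
  let dec : ℕ → List ℕ × List ℕ := fun c => (Encodable.decode c).getD ([], [])
  have hdec : Primrec dec := Primrec.option_getD.comp Primrec.decode (Primrec.const _)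
  let F : ℕ → ℕ := fun c => h ((dec c).1 ++ (num c).str ++ (dec c).2)
  have hF : Primrec F := hh.comp (Primrec.list_append.comp
    (Primrec.list_append.comp (Primrec.fst.comp hdec) H18.primrec_num_str) (Primrec.snd.comp hdec))
  obtain ⟨Φ, hΦs, hΦf, hΦp, hΦa⟩ := graphN hF
  set s := len Q + sz Z + sz Φ + sz C with hs
  set H := 10 + 2 ^ s * s with hH
  obtain ⟨L1, L2, hL⟩ := aa_str H Z (conj (NN (.var 0)) Φ) C
  set c : ℕ := Encodable.encode (L1, L2) with hc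
  set a : Fm := aa H Z (conj (NN (.var 0)) Φ) C c with ha
  have hga : g a = F c := by
    have : dec c = (L1, L2) := by simp only [dec, hc, Encodable.encodek, Option.getD_some]
    simp only [F, this, hg, ha, hL]
  have hΦ' : ∀ x, (conj (NN (.var 0)) Φ).Free x → x = 0 ∨ x = 2 := fun x hx =>
    ((H9.free_conj _ _ _).1 hx).elim (fun h => Or.inl (by simpa [NN, eq_comm] using h)) (hΦf x)
  have hac : a.Closed := fun x hx => by
    rw [ha, aa, H9.free_ex, H9.free_conj] at hx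
    exact hx.1 (hx.2.elim (free_GG hZc) (free_fix hΦ' hfv))
  have haa : ArF a := .imp _ _ (.all _ _ (.imp _ _ (ar_conj (ar_conjL (fun _ hb => by
    obtain ⟨b, -, rfl⟩ := List.mem_map.1 hb; exact ar_trF b) hZ) (.all _ _ (.imp _ _
      (.eq _ _ (.var _) (H18.arT_num c)) (.all _ _ (.imp _ _ (ar_conj (ar_NN (.var _)) hΦs)
        (.all _ _ (.imp _ _ (ar_trF _) har))))))) .bot)) .bot
  have hk := k0_ge
  have hA : Prov (Q ++ [a]) a := H18.Prov.ax (by simp)
  refine ⟨a, H, haa, hac, ?_, ?_, ?_⟩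
  · rintro ⟨p, hp, hbot⟩
    obtain ⟨f, h1, h2, h3, -⟩ := arith_proof hp fun b hb => (List.mem_append.1 hb).elim
      (arF_Q b) fun h => List.mem_singleton.1 h ▸ haa
    have hex : ∃ n, ¬ NoRef l (Q ++ [a]) n := ⟨_, fun h => h ⟨_, h1, fun _ hb => by
      obtain ⟨b, -, rfl⟩ := List.mem_map.1 hb; exact (h2 b).1,
      h3 _ .bot ▸ List.mem_map_of_mem hbot, le_rfl⟩⟩
    obtain ⟨q, hq, -, hqb, hql⟩ := not_not.1 (Nat.find_spec hex)
    set n0 := Nat.find hex with hn0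
    have hw : ∀ b ∈ q, wd b ≤ n0 := fun b hb => (hl b).trans (by
      exact_mod_cast (List.single_le_sum (fun _ _ => Nat.zero_le _) _
        (List.mem_map_of_mem hb)).trans hql)
    have hr : ∀ b ∈ q, b.rank ≤ n0 := fun b hb => by
      exact_mod_cast le_add_self.trans (hw b hb)
    refine PW.not_valid_bot (PW.sound (P := PX H (16 * n0)) hq (fun b hb => ?_)
      (fun b hb hbq => ?_) _ hqb)
    · refine lt_of_le_of_lt (mul_le_mul_right (hw b hb) _) ?_
      show (16 * n0 : ℕ∞) < ((2 * (16 * n0) + 1 : ℕ) : ℕ∞)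
      exact_mod_cast (by omega)
    rcases List.mem_append.1 hb with hb | hb
    · have hbc : b.Closed := fun x => by
        simp only [Q, List.mem_cons, List.not_mem_nil, or_false] at hb
        rcases hb with rfl | rfl | rfl | rfl | rfl | rfl | rfl <;> simp <;> omega
      have := sz_le_len hb
      exact fun v w hw => (transfer_num (s := s) (arF_Q b hb) (by omega) (by omega) (hr b hbq)
        ((PX H (16 * n0)).good_mono (Set.empty_subset _) hw) fun i hi => (hbc i hi).elim).2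
        (mm_Q _ _ b hb v)
    obtain rfl := List.mem_singleton.1 hb
    refine valid_aa (s := s) (y := F c) (by omega) ⟨hZ, hZc, by omega⟩ ⟨hΦs, hΦf, by omega⟩
      ⟨har, hfv, by omega⟩ (hr _ hbq) (sZ _ _ _) (fun v x => hΦa _ _ _ v c x) fun v x hx h0 h1 => ?_
    obtain ⟨r, hr, hmem⟩ := hprov a haa hac x (not_not.1 (Nat.find_min hex hx))
    have hs := H18.sound _ hr (mm_Q H (βa (m := 2 * (16 * n0) + 1) (16 * n0) 0)) _ hmem v
    rw [con, H18.sat_subst _ _ _ _ (H18.freeFor_closed _ _ (H18.num_not_occ _)),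
      H18.sat_subst _ _ _ _ (H18.freeFor_closed _ _ (H18.num_not_occ _)),
      H18.ev_num _ (mm_std _ _), H18.ev_num _ (mm_std _ _)] at hs
    refine (H18.sat_congr _ C fun z hz => ?_).1 hs
    rcases hfv z hz with rfl | rfl
    · simp [h0, hga]
    · simp [h1]
  · exact (H9.pExElim (PD.intro (pd_conjL (pd_left PD.h0)).2).prov (hZc _)).mp hA
  · refine (H9.pExElim (H9.pGenImp ?_ fun h => ?_) fun h => ?_).mp hA
    · have hX : ∀ x u, x ≠ 1 → x < 3 → (trF H k0 (XP (.var 1))).subst x u = trF H k0 (XP (.var 1)) :=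
        fun x u h1 h2 => H18.subst_not_free _ _ _ fun h =>
          (free_trF h).elim (by omega) fun h => h1 (free_XP.1 h).symm
      have h1 := H9.pLogic (A := Q ++ [a]) (.inst 2 (num c) (.imp (.eq (.var 2) (num c))
        (body H (conj (NN (.var 0)) Φ) C)) (H18.freeFor_closed _ _ (H18.num_not_occ c)))
      have h2 := H9.pLogic (A := Q ++ [a]) (.inst 0 (num (F c)) (.imp
        ((conj (NN (.var 0)) Φ).subst 2 (num c)) (.all 1 (.imp (trF H k0 (XP (.var 1))) C)))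
        (H18.freeFor_closed _ _ (H18.num_not_occ _)))
      have hC2 : C.subst 2 (num c) = C := H18.subst_not_free _ _ _ fun hx => by
        rcases hfv 2 hx with h | h <;> omega
      simp only [body, H9.subst_imp, H9.subst_eq, H9.subst_all, H9.subst_var, H9.subst_num,
        if_true, OfNat.zero_ne_ofNat, OfNat.one_ne_ofNat, one_ne_zero, if_false, hC2,
        hX 2 _ (by omega) (by omega), hX 0 _ (by omega) (by omega)] at h1 h2
      rw [hga]
      exact (PD.intro (PD.intro (.mp (PD.ap (H9.pAllElim _ _) (.mp (PD.ap h2 (.mp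
        (PD.ap h1 (pd_right PD.h1)) (.thm (H9.pRefl _)))) (.thm ((hΦp c).cut fun b hb =>
          H18.Prov.ax (List.mem_append_left _ hb)))))
        (.mp (PD.ap (H9.pAllElim _ _) PD.h0) (pd_left PD.h1))))).prov
    · have := ((H9.free_conj _ _ _).1 h).elim (free_GG hZc) (free_fix hΦ' hfv)
      omega
    · rcases h.2 with h | h
      · exact h.1 rfl
      · rcases H9.free_subst h with h | h
        · have := hfv _ h; omega
        · exact H18.num_not_occ _ _ h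

end Pool.Agent.MP_8ec908_lc.H65
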