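import Pool.Agent.MP_8ec908_lc.H47.Arith
import Pool.Agent.MP_8ec908_lc.H18.Kit

/-! A model of Robinson arithmetic with stacks, and the back and forth system. -/

namespace Pool.Agent.MP_8ec908_lc.H65

open Pool.Agent.MP_8ec908_lc.Defs Pool.Agent.MP_8ec908_lc.H47 Function Sum

/-- The entries of a stack. -/
abbrev Core (U : Type) : Type := Fin 9 → Option (ℕ ⊕ U)

/-- Numbers, atoms and stacks with a height. -/
abbrev El (U : Type) : Type := (ℕ ⊕ U) ⊕ (Core U × ℕ)

variable {U : Type}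

/-- Push an entry; the height stops growing at `H`. -/
def push (H : ℕ) (e : Option (ℕ ⊕ U)) (s : Core U × ℕ) : Core U × ℕ :=
  (fun i => if (i : ℕ) = s.2 then e else s.1 i, if s.2 < H then s.2 + 1 else s.2)

/-- The entry of an element. -/
def pr : El U → Option (ℕ ⊕ U)
  | inl x => some x
  | inr _ => none

def dS : El U → El U
  | inl x => inl (aS x)
  | inr s => inr s

def dAdd (H : ℕ) : El U → El U → El U
  | x, inr s => inr (push H (pr x) s)
  | inl x, inl y => inl (aAdd x y)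
  | inr s, inl (inl _) => inr s
  | inr _, inl (inr u) => inl (inr u)

def dMul (H : ℕ) (β : Core U → ℕ) : El U → El U → El U
  | inl x, inl y => inl (aMul x y)
  | inl (inl 0), inr s => inl (inl (if H ≤ s.2 then β s.1 else 0))
  | inl (inl (_ + 1)), inr s => inr s
  | inl (inr u), inr _ => inl (inr u)
  | inr _, inl (inl 0) => inl (inl 0)
  | inr s, inl (inl 1) => inr (push H (some (inl 0)) s)
  | inr s, inl (inl (_ + 2)) => inr (push H none s)
  | inr s, inl (inr _) => inr (push H none s)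
  | inr s, inr _ => inr (push H none s)

/-- The function symbols. -/
def dFn (H : ℕ) (β : Core U → ℕ) : (k n : ℕ) → (Fin n → El U) → El U
  | 0, 1, ds => dS (ds 0)
  | 0, 2, ds => dAdd H (ds 0) (ds 1)
  | 1, 2, ds => dMul H β (ds 0) (ds 1)
  | _, _, _ => inl (inl 0)

theorem dFn_cases (k n : ℕ) : (k = 0 ∧ n = 1) ∨ (k = 0 ∧ n = 2) ∨ (k = 1 ∧ n = 2) ∨
    ∀ H (β : Core U → ℕ) ds, dFn H β k n ds = inl (inl 0) := by
  match k, n with
  | 0, 0 => right; right; right; intros; rfl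
  | 0, 1 => simp
  | 0, 2 => simp
  | 1, 2 => simp
  | 0, n + 3 => right; right; right; intros; rfl
  | 1, 0 => right; right; right; intros; rfl
  | 1, 1 => right; right; right; intros; rfl
  | 1, n + 3 => right; right; right; intros; rfl
  | k + 2, n => right; right; right; intros; rfl

/-- The structure; every relation symbol says that its arguments are numbers. -/
def MM (H : ℕ) (β : Core U → ℕ) : H18.Struc (El U) where
  fn := dFn H β
  rel _ _ ds := ∀ i, ∃ x, ds i = inl (inl x)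

section
variable (H : ℕ) (β : Core U → ℕ) (v : ℕ → El U)

theorem mm_zero : H18.ev (MM H β) v zero = inl (inl 0) := rfl
theorem mm_succ (t : Tm) : H18.ev (MM H β) v (succ t) = dS (H18.ev (MM H β) v t) := rfl
theorem mm_add (s t : Tm) :
    H18.ev (MM H β) v (add s t) = dAdd H (H18.ev (MM H β) v s) (H18.ev (MM H β) v t) := rfl
theorem mm_mul (s t : Tm) :
    H18.ev (MM H β) v (mul s t) = dMul H β (H18.ev (MM H β) v s) (H18.ev (MM H β) v t) := rfl

theorem mm_std : H18.StdExt (MM H β) fun n => inl (inl n) :=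
  ⟨inl_injective.comp inl_injective, rfl, fun _ => rfl, fun _ _ => rfl, fun _ _ => rfl,
    fun _ => by simp [MM]⟩

theorem dS_ne (d : El U) : dS d ≠ d ↔ ∃ x, d = inl (inl x) := by
  rcases d with (n | u) | s <;> simp [dS]

theorem q_inj (d d' : El U) (h : dS d = dS d') : d = d' := by
  rcases d with (n | u) | s <;> rcases d' with (n' | u') | s' <;> simp_all [dS]

theorem q_add (d d' : El U) : dAdd H d (dS d') = dS (dAdd H d d') := by
  rcases d with (n | u) | s <;> rcases d' with (n' | u') | s' <;> rfl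

theorem q_mul (d d' : El U) : dMul H β d (dS d') = dAdd H (dMul H β d d') d := by
  rcases d with ((_ | n) | u) | s <;> rcases d' with ((_ | _ | n') | u') | s' <;>
    rfl

theorem mm_Q : ∀ φ ∈ Q, ∀ v, H18.sat (MM H β) v φ := by
  intro φ hφ v
  simp only [Q, List.mem_cons, List.not_mem_nil, or_false] at hφ
  rcases hφ with rfl | rfl | rfl | rfl | rfl | rfl | rfl
  · intro d (h : dS d = inl (inl 0))
    rcases d with (n | u) | s <;> cases h
  · exact fun d d' h => q_inj d d' h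
  · intro d (h : d = inl (inl 0) → False) (h' : ∀ d', d = dS d' → False)
    rcases d with ((_ | n) | u) | s
    · exact h rfl
    · exact h' (inl (inl n)) rfl
    · exact h' (inl (inr u)) rfl
    · exact h' (inr s) rfl
  · intro d
    show dAdd H d (inl (inl 0)) = d
    rcases d with (n | u) | s <;> rfl
  · exact fun d d' => q_add H d d'
  · intro d
    show dMul H β d (inl (inl 0)) = inl (inl 0)
    rcases d with (n | u) | s <;> rfl
  · exact fun d d' => q_mul H β d d'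

end

/-- Consistent sets of pairs with slack `g`. -/
structure Cons (H g : ℕ) (OK : Core U → Core U → Prop) (R : El U → El U → Prop) : Prop where
  shape : ∀ x y, R x y → x = y ∨ ∃ f f' h, 9 + g < h ∧ x = inr (f, h) ∧ y = inr (f', h)
  top : ∀ f f' h h', R (inr (f, h)) (inr (f', h')) → H ≤ h + g → OK f f'
  near : ∀ f f' h h' e e' k k', R (inr (f, h)) (inr (f', h')) → R (inr (e, k)) (inr (e', k')) →
    h ≤ k + g → k ≤ h + g → (f = e ↔ f' = e')

namespace Cons

variable {H g g' : ℕ} {OK OK' : Core U → Core U → Prop} {R R' : El U → El U → Prop}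

theorem mono (c : Cons H g OK R) (hg : g' ≤ g) (hR : ∀ x y, R' x y → R x y)
    (hO : ∀ f f' h h', R' (inr (f, h)) (inr (f', h')) → OK f f' → OK' f f') : Cons H g' OK' R' where
  shape x y h := (c.shape x y (hR _ _ h)).imp id fun ⟨f, f', k, h1, h2⟩ => ⟨f, f', k, by omega, h2⟩
  top f f' h h' h1 h2 := hO _ _ _ _ h1 (c.top _ _ _ _ (hR _ _ h1) (by omega))
  near f f' h h' e e' k k' h1 h2 h3 h4 :=
    c.near _ _ _ _ _ _ _ _ (hR _ _ h1) (hR _ _ h2) (by omega) (by omega)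

theorem ht (c : Cons H g OK R) {f f' : Core U} {h h' : ℕ} (r : R (inr (f, h)) (inr (f', h'))) :
    h = h' ∧ (h ≤ 9 + g → f = f') := by
  rcases c.shape _ _ r with h1 | ⟨e, e', k, h1, h2, h3⟩
  · cases h1; simp
  · cases h2; cases h3; exact ⟨rfl, fun _ => by omega⟩

theorem symm (c : Cons H g OK R) : Cons H g (fun f f' => OK f' f) fun x y => R y x where
  shape x y h := (c.shape y x h).imp Eq.symm fun ⟨f, f', k, h1, h2, h3⟩ => ⟨f', f, k, h1, h3, h2⟩
  top f f' h h' h1 h2 := c.top _ _ _ _ h1 ((c.ht h1).1 ▸ h2)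
  near f f' h h' e e' k k' h1 h2 h3 h4 := by
    obtain rfl := (c.ht h1).1
    obtain rfl := (c.ht h2).1
    exact (c.near _ _ _ _ _ _ _ _ h1 h2 h3 h4).symm

theorem eq_iff (c : Cons H g OK R) {x y x' y' : El U} (h1 : R x x') (h2 : R y y') :
    x = y ↔ x' = y' := by
  have key : ∀ {OK : Core U → Core U → Prop} {R : El U → El U → Prop}, Cons H g OK R →
      ∀ {x x' y'}, R x x' → R x y' → x' = y' := by
    intro OK R c x x' y' h1 h2
    rcases x with b | ⟨f, h⟩
    · rcases c.shape _ _ h1 with rfl | ⟨_, _, _, _, h3, _⟩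
      · rcases c.shape _ _ h2 with rfl | ⟨_, _, _, _, h3, _⟩
        · rfl
        · cases h3
      · cases h3
    · obtain ⟨e, rfl⟩ : ∃ e, x' = inr (e, h) := by
        rcases c.shape _ _ h1 with rfl | ⟨_, _, _, _, h3, h4⟩
        exacts [⟨f, rfl⟩, by cases h3; exact ⟨_, h4⟩]
      obtain ⟨e', rfl⟩ : ∃ e, y' = inr (e, h) := by
        rcases c.shape _ _ h2 with rfl | ⟨_, _, _, _, h3, h4⟩
        exacts [⟨f, rfl⟩, by cases h3; exact ⟨_, h4⟩]
      rw [(c.near _ _ _ _ _ _ _ _ h1 h2 (by omega) (by omega)).1 rfl]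
  exact ⟨fun h => key c h1 (h ▸ h2), fun h => key c.symm h1 (h ▸ h2)⟩

end Cons

/-- One application of an operation. -/
def up (H : ℕ) (R : El U → El U → Prop) (x y : El U) : Prop :=
  (∃ b, x = inl b ∧ y = inl b) ∨ R x y ∨
    ∃ e s s', R (inr s) (inr s') ∧ x = inr (push H e s) ∧ y = inr (push H e s')

theorem push_fst {H : ℕ} (e : Option (ℕ ⊕ U)) {f : Core U} {h : ℕ} (h9 : 9 ≤ h) :
    (push H e (f, h)).1 = f := by
  funext i
  exact if_neg (by have := i.2; simp only; omega)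

namespace Cons

variable {H g : ℕ} {OK : Core U → Core U → Prop} {R : El U → El U → Prop}

/-- a stack pair of `up` comes from a stack pair of `R`. -/
theorem up_src (c : Cons H (g + 1) OK R) {f f' : Core U} {h h' : ℕ}
    (r : up H R (inr (f, h)) (inr (f', h'))) : h = h' ∧ (h ≤ 9 + g → f = f') ∧
      (9 < h → ∃ k k', R (inr (f, k)) (inr (f', k')) ∧ k ≤ h ∧ h ≤ k + 1) := by
  rcases r with ⟨b, h1, -⟩ | r | ⟨e, ⟨f0, k⟩, ⟨f0', k'⟩, r, h1, h2⟩
  · cases h1
  · exact ⟨(c.ht r).1, fun h1 => (c.ht r).2 (by omega), fun _ => ⟨_, _, r, le_rfl, by omega⟩⟩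
  · obtain ⟨rfl, h3⟩ := c.ht r
    obtain ⟨rfl, rfl⟩ := Prod.ext_iff.1 (inr.inj h1)
    obtain ⟨rfl, rfl⟩ := Prod.ext_iff.1 (inr.inj h2)
    have h4 : k ≤ (push H e (f0, k)).2 ∧ (push H e (f0, k)).2 ≤ k + 1 := by
      simp only [push]
      split_ifs <;> omega
    refine ⟨rfl, fun h5 => by rw [h3 (by omega)], fun h5 => ⟨k, k, ?_, h4⟩⟩
    rwa [push_fst e (by omega), push_fst e (by omega)]

theorem up (c : Cons H (g + 1) OK R) (hH : 9 + g < H) : Cons H g OK (up H R) where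
  shape x y r := by
    rcases x with b | ⟨f, h⟩
    · rcases r with ⟨b, h1, h2⟩ | r | ⟨e, s, s', -, h1, -⟩
      · exact Or.inl (h1.trans h2.symm)
      · exact (c.shape _ _ r).imp id fun ⟨_, _, _, _, h, _⟩ => by cases h
      · cases h1
    obtain ⟨⟨f', h'⟩, rfl⟩ : ∃ s, y = inr s := by
      rcases r with ⟨b, h1, h2⟩ | r | ⟨e, s, s', -, -, h1⟩
      · cases h1
      · rcases c.shape _ _ r with rfl | ⟨_, _, _, _, _, h⟩
        exacts [⟨_, rfl⟩, ⟨_, h⟩]
      · exact ⟨_, h1⟩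
    obtain ⟨rfl, h1, -⟩ := c.up_src r
    by_cases h2 : h ≤ 9 + g
    · exact Or.inl (by rw [h1 h2])
    · exact Or.inr ⟨f, f', h, by omega, rfl, rfl⟩
  top f f' h h' r h1 := by
    obtain ⟨k, k', h2, h3, h4⟩ := (c.up_src r).2.2 (by omega)
    exact c.top _ _ _ _ h2 (by omega)
  near f f' h h' e e' k k' r r' h1 h2 := by
    obtain ⟨-, h3, h4⟩ := c.up_src r
    obtain ⟨-, h5, h6⟩ := c.up_src r'
    by_cases h7 : h ≤ 9 + g ∧ k ≤ 9 + g
    · rw [h3 h7.1, h5 h7.2]
    obtain ⟨i, i', r1, h8, h9⟩ := h4 (by omega)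
    obtain ⟨j, j', r2, h10, h11⟩ := h6 (by omega)
    exact c.near _ _ _ _ _ _ _ _ r1 r2 (by omega) (by omega)

theorem cases (c : Cons H g OK R) {x y : El U} (r : R x y) :
    (∃ b, x = inl b ∧ y = inl b) ∨ ∃ f f' h, x = inr (f, h) ∧ y = inr (f', h) := by
  rcases c.shape _ _ r with rfl | ⟨f, f', h, -, h1⟩
  · rcases x with b | ⟨f, h⟩
    exacts [Or.inl ⟨b, rfl, rfl⟩, Or.inr ⟨f, f, h, rfl, rfl⟩]
  · exact Or.inr ⟨f, f', h, h1⟩

theorem up_S (c : Cons H g OK R) {x y : El U} (r : R x y) : H65.up H R (dS x) (dS y) := by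
  rcases c.cases r with ⟨b, rfl, rfl⟩ | ⟨f, f', h, rfl, rfl⟩
  exacts [Or.inl ⟨_, rfl, rfl⟩, Or.inr (Or.inl r)]

theorem up_add (c : Cons H g OK R) {x y x' y' : El U} (r : R x x') (r' : R y y') :
    H65.up H R (dAdd H x y) (dAdd H x' y') := by
  rcases c.cases r with ⟨b, rfl, rfl⟩ | ⟨f, f', h, rfl, rfl⟩ <;>
    rcases c.cases r' with ⟨n | u, rfl, rfl⟩ | ⟨e, e', k, rfl, rfl⟩
  · exact Or.inl ⟨_, rfl, rfl⟩
  · exact Or.inl ⟨_, rfl, rfl⟩
  · exact Or.inr (Or.inr ⟨_, _, _, r', rfl, rfl⟩)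
  · exact Or.inr (Or.inl r)
  · exact Or.inl ⟨_, rfl, rfl⟩
  · exact Or.inr (Or.inr ⟨_, _, _, r', rfl, rfl⟩)

theorem up_mul {β β' : Core U → ℕ} (c : Cons H g (fun f f' => β f = β' f') R)
    {x y x' y' : El U} (r : R x x') (r' : R y y') :
    H65.up H R (dMul H β x y) (dMul H β' x' y') := by
  rcases c.cases r with ⟨(_ | n) | u, rfl, rfl⟩ | ⟨f, f', h, rfl, rfl⟩ <;>
    rcases c.cases r' with ⟨(_ | _ | n) | u, rfl, rfl⟩ | ⟨e, e', k, rfl, rfl⟩ <;>
    first
    | exact Or.inl ⟨_, rfl, rfl⟩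
    | exact Or.inr (Or.inl r')
    | exact Or.inr (Or.inr ⟨_, _, _, r, rfl, rfl⟩)
    | skip
  refine Or.inl ⟨_, rfl, ?_⟩
  simp only [dMul]
  split_ifs with h
  · rw [c.top _ _ _ _ r' (by omega)]
  · rfl

/-- The extension step. -/
theorem ext (c : Cons H (2 * g) OK R) (hH : 9 + 2 * g < H) (hf : {p : El U × El U | R p.1 p.2}.Finite)
    (sup : ∀ f, ∃ κ : ℕ → Core U, Injective κ ∧ ∀ j, OK f (κ j)) (d : El U) :
    ∃ d', Cons H g OK fun x y => R x y ∨ (x = d ∧ y = d') := by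
  have c0 : Cons H g OK R := c.mono (by omega) (fun _ _ h => h) fun _ _ _ _ _ h => h
  have key : ∀ d', (d = d' ∨ ∃ f f' h, 9 + g < h ∧ d = inr (f, h) ∧ d' = inr (f', h)) →
      (∀ f f' h h', d = inr (f, h) → d' = inr (f', h') → H ≤ h + g → OK f f') →
      (∀ f f' h h' e e' k k', d = inr (f, h) → d' = inr (f', h') → R (inr (e, k)) (inr (e', k')) →
        h ≤ k + g → k ≤ h + g → (f = e ↔ f' = e')) →
      Cons H g OK fun x y => R x y ∨ (x = d ∧ y = d') := by
    intro d' h1 h2 h3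
    refine ⟨?_, ?_, ?_⟩
    · rintro x y (r | ⟨rfl, rfl⟩)
      exacts [c0.shape _ _ r, h1]
    · rintro f f' h h' (r | ⟨h4, h5⟩)
      exacts [c0.top _ _ _ _ r, h2 _ _ _ _ h4.symm h5.symm]
    · rintro f f' h h' e e' k k' (r | ⟨h4, h5⟩) (r' | ⟨h6, h7⟩) h8 h9
      · exact c0.near _ _ _ _ _ _ _ _ r r' h8 h9
      · rw [eq_comm, @eq_comm _ f']
        exact h3 _ _ _ _ _ _ _ _ h6.symm h7.symm r h9 h8
      · exact h3 _ _ _ _ _ _ _ _ h4.symm h5.symm r' h8 h9
      · cases h4.trans h6.symm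
        cases h5.trans h7.symm
        simp
  rcases d with b | ⟨f, h⟩
  · exact ⟨_, key _ (Or.inl rfl) (fun _ _ _ _ h => by cases h) fun _ _ _ _ _ _ _ _ h => by cases h⟩
  by_cases hA : ∃ f' k k', R (inr (f, k)) (inr (f', k')) ∧ h ≤ k + g ∧ k ≤ h + g
  · obtain ⟨f', k, k', r, h1, h2⟩ := hA
    refine ⟨inr (f', h), key _ ?_ ?_ ?_⟩
    · by_cases h3 : h ≤ 9 + g
      · exact Or.inl (by rw [(c.ht r).2 (by omega)])
      · exact Or.inr ⟨f, f', h, by omega, rfl, rfl⟩
    · rintro _ _ _ _ ⟨⟩ ⟨⟩ h3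
      exact c.top _ _ _ _ r (by omega)
    · rintro _ _ _ _ e e' j j' ⟨⟩ ⟨⟩ r' h3 h4
      exact c.near _ _ _ _ _ _ _ _ r r' (by omega) (by omega)
  by_cases hB : h ≤ 9 + g
  · refine ⟨_, key _ (Or.inl rfl) ?_ ?_⟩
    · rintro _ _ _ _ ⟨⟩ ⟨⟩ h3
      omega
    · rintro _ _ _ _ e e' j j' ⟨⟩ ⟨⟩ r' h3 h4
      rw [(c.ht r').2 (by omega)]
  obtain ⟨κ, hκ, hO⟩ := sup f
  obtain ⟨_, ⟨j, rfl⟩, hj⟩ := (Set.infinite_range_of_injective hκ).exists_notMem_finite
    (hf.image fun p => Sum.elim (fun _ => f) Prod.fst p.2)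
  refine ⟨inr (κ j, h), key _ (Or.inr ⟨f, _, h, by omega, rfl, rfl⟩) ?_ ?_⟩
  · rintro _ _ _ _ ⟨⟩ ⟨⟩ _
    exact hO j
  · rintro _ _ _ _ e e' i i' ⟨⟩ ⟨⟩ r' h3 h4
    exact iff_of_false (fun h5 => hA ⟨e', i, i', h5 ▸ r', h3, h4⟩)
      fun h5 => hj ⟨(inr (e, i), inr (e', i')), r', h5.symm⟩

end Cons

theorem cons_iter {H g : ℕ} {OK : Core U → Core U → Prop} (j : ℕ) :
    ∀ {R : El U → El U → Prop}, Cons H (g + j) OK R → 9 + g + j < H →
      Cons H g OK ((up H)^[j] R) := by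
  induction j with
  | zero => exact fun c _ => c
  | succ j ih => exact fun c h => ih (Cons.up c (by omega)) (by omega)

theorem tm_rel {H : ℕ} {β β' : Core U → ℕ} {R : El U → El U → Prop} {v w : ℕ → El U} {t : Tm}
    (ht : ArT t) : ∀ j g, t.str.length ≤ j → Cons H (g + j) (fun f f' => β f = β' f') R →
      9 + g + j < H → (∀ i, t.Occ i → R (v i) (w i)) →
      (up H)^[j] R (H18.ev (MM H β) v t) (H18.ev (MM H β') w t) := by
  have step : ∀ j g, Cons H (g + (j + 1)) (fun f f' => β f = β' f') R → 9 + g + (j + 1) < H →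
      Cons H (g + 1 + j) (fun f f' => β f = β' f') R ∧ 9 + (g + 1) + j < H ∧
        Cons H (g + 1) (fun f f' => β f = β' f') ((up H)^[j] R) := by
    intro j g c h
    rw [show g + (j + 1) = g + 1 + j by omega] at c
    exact ⟨c, by omega, cons_iter j c (by omega)⟩
  induction ht with
  | var i =>
    intro j g _ _ _ h
    have h1 := h i rfl
    clear * - h1
    induction j with
    | zero => exact h1
    | succ j ih => rw [iterate_succ_apply']; exact Or.inr (Or.inl ih)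
  | zero =>
    rintro (_ | j) g hj _ _ _
    · simp [zero, Tm.str] at hj
    · rw [iterate_succ_apply']; exact Or.inl ⟨_, rfl, rfl⟩
  | succ t _ ih =>
    rintro (_ | j) g hj c hH h
    · simp [succ, Tm.str] at hj
    · obtain ⟨c1, h1, c2⟩ := step j g c hH
      rw [iterate_succ_apply']
      exact c2.up_S (ih j _ (by simp [succ, Tm.str] at hj; omega) c1 h1 fun i hi => h i ⟨0, hi⟩)
  | add s t _ _ ih1 ih2 =>
    rintro (_ | j) g hj c hH h
    · simp [add, Tm.str] at hj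
    · obtain ⟨c1, h1, c2⟩ := step j g c hH
      rw [iterate_succ_apply']
      simp [add, Tm.str] at hj
      exact c2.up_add (ih1 j _ (by omega) c1 h1 fun i hi => h i ⟨0, hi⟩)
        (ih2 j _ (by omega) c1 h1 fun i hi => h i ⟨1, hi⟩)
  | mul s t _ _ ih1 ih2 =>
    rintro (_ | j) g hj c hH h
    · simp [mul, Tm.str] at hj
    · obtain ⟨c1, h1, c2⟩ := step j g c hH
      rw [iterate_succ_apply']
      simp [mul, Tm.str] at hj
      exact c2.up_mul (ih1 j _ (by omega) c1 h1 fun i hi => h i ⟨0, hi⟩)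
        (ih2 j _ (by omega) c1 h1 fun i hi => h i ⟨1, hi⟩)

end Pool.Agent.MP_8ec908_lc.H65
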