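import Pool.Agent.MP_8ec908_lc.H19.Prim
import Pool.Agent.MP_8ec908_lc.H65.Defs

/-! Short arithmetic refutability is primitive recursive. -/

namespace Pool.Agent.MP_8ec908_lc.H65

open Pool.Agent.MP_8ec908_lc.Defs Pool.Agent.MP_8ec908_lc.H19

attribute [local fun_prop] Primrec
attribute [local fun_prop] Primrec.const Primrec.fst Primrec.snd Primrec.pair p_comp p_id p_add
  p_length p_range p_cond p_beq p_le p_and p_or p_any p_all p_lst p_tag p_dat p_memC p_proofC p_lb
  p_cb p_mb p_lenC

def arG (c : ℕ) (rs : List Bool) : Bool :=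
  bif tag c == 4 then false
  else bif tag c == 1 then ((dat c == 0 && decide (rs.length ≤ 2) || dat c == 1 && rs.length == 2)
    && rs.all fun r => r)
  else rs.all fun r => r

def arC (c : ℕ) : Bool := trec arG c

theorem arT_app (k n : ℕ) (ts : Fin n → Tm) :
    ArT (.app k n ts) ↔ (k = 0 ∧ n ≤ 2 ∨ k = 1 ∧ n = 2) ∧ ∀ i, ArT (ts i) := by
  constructor
  · have : ∀ t, ArT t → match t with
        | .var _ => True
        | .app k n ts => (k = 0 ∧ n ≤ 2 ∨ k = 1 ∧ n = 2) ∧ ∀ i, ArT (ts i) := by
      intro t h
      cases h with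
      | var i => trivial
      | zero => exact ⟨by simp, fun i => i.elim0⟩
      | succ t h => exact ⟨by simp, fun i => by fin_cases i; exact h⟩
      | add s t h h' => exact ⟨by simp, fun i => by fin_cases i; exacts [h, h']⟩
      | mul s t h h' => exact ⟨by simp, fun i => by fin_cases i; exacts [h, h']⟩
    exact this _
  · rintro ⟨⟨rfl, h⟩ | ⟨rfl, rfl⟩, ih⟩
    · interval_cases n
      · convert ArT.zero using 1
        exact congrArg _ (funext fun i => i.elim0)
      · convert ArT.succ _ (ih 0) using 1
        exact congrArg _ (funext fun i => by fin_cases i; rfl)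
      · convert ArT.add _ _ (ih 0) (ih 1) using 1
        exact congrArg _ (funext fun i => by fin_cases i <;> rfl)
    · convert ArT.mul _ _ (ih 0) (ih 1) using 1
      exact congrArg _ (funext fun i => by fin_cases i <;> rfl)

theorem arC_tcode (t : Tm) : arC (tcode t) = true ↔ ArT t := by
  induction t with
  | var i => simpa [arC, tcode, trec_node, arG] using ArT.var i
  | app k n ts ih =>
    unfold arC at ih
    simp [arC, tcode, trec_node, arG, arT_app, List.map_ofFn, Function.comp_def, ih, List.mem_ofFn]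

theorem arC_fcode (a : Fm) : arC (fcode a) = true ↔ ArF a := by
  have ht := arC_tcode
  unfold arC at ht
  induction a with
  | bot => simpa [arC, fcode, botC, trec_node, arG] using ArF.bot
  | eq s t =>
    simp only [arC, fcode, eqC, trec_node, arG, tag_node]
    simpa [ht] using ⟨fun h => .eq s t h.1 h.2, fun h => by cases h; exact ⟨‹_›, ‹_›⟩⟩
  | rel k n ts => simpa [arC, fcode, trec_node, arG] using fun h => by cases h
  | imp a b iha ihb =>
    unfold arC at iha ihb
    simp only [arC, fcode, impC, trec_node, arG, tag_node]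
    simpa [iha, ihb] using ⟨fun h => .imp a b h.1 h.2, fun h => by cases h; exact ⟨‹_›, ‹_›⟩⟩
  | all x a ih =>
    unfold arC at ih
    simp only [arC, fcode, allC, trec_node, arG, tag_node]
    simpa [ih] using ⟨.all x a, fun h => by cases h; assumption⟩

@[local fun_prop] theorem p_arC : Primrec arC := by
  apply p_trec₁
  unfold arG
  fun_prop

def refA (s : List ℕ) (n : ℕ) : Bool :=
  (List.range (lb (cb (mb n)) n + 1)).any fun d =>
    proofC s (cb (mb n)) (lst d) && (lst d).all arC && memC botC (lst d) &&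
      decide (lenC (lst d) ≤ n)

theorem refA_iff (a : Fm) (n : ℕ) :
    refA a.str n = false ↔ NoRef (fun b => b.str.length) (Q ++ [a]) n := by
  rw [NoRef, ← Bool.not_eq_true]
  simp only [refA, List.any_eq_true, Bool.and_eq_true, memC_iff, decide_eq_true_eq,
    List.mem_range, List.all_eq_true]
  refine not_congr ⟨?_, ?_⟩
  · rintro ⟨d, -, ⟨⟨h1, h0⟩, h2⟩, h3⟩
    obtain ⟨q, hq, hp⟩ := proofC_sound a _ _ h1
    rw [hq] at h0 h2 h3
    exact ⟨q, hp, fun b hb => (arC_fcode b).1 (h0 _ (List.mem_map_of_mem hb)), mem_map_fcode.1 h2,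
      by rwa [lenC_map] at h3⟩
  · rintro ⟨q, hq, h0, h2, h3⟩
    refine ⟨Encodable.encode (q.map fcode), Nat.lt_succ_of_le ?_, ⟨⟨?_, ?_⟩, ?_⟩, ?_⟩
    · apply encode_le_lb
      · simpa using (length_le_len q).trans h3
      · intro x hx
        obtain ⟨b, hb, rfl⟩ := List.mem_map.1 hx
        have h4 : b.str.length ≤ n :=
          (List.le_sum_of_mem (List.mem_map_of_mem (f := fun a : Fm => a.str.length) hb)).trans h3
        exact (fcode_lt_cb (by unfold mb; omega)).le
    · rw [lst_encode]; exact proofC_complete a n hq h3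
    · rw [lst_encode]
      intro x hx
      obtain ⟨b, hb, rfl⟩ := List.mem_map.1 hx
      exact (arC_fcode b).2 (h0 b hb)
    · rw [lst_encode]; exact mem_map_fcode.2 h2
    · rw [lst_encode, lenC_map]; exact h3

theorem primrec_noRef : ∃ R : ℕ → ℕ → Prop, PrimrecRel R ∧ ∀ (a : Fm) (n : ℕ),
    R (Encodable.encode a.str) n ↔ NoRef (fun b => b.str.length) (Q ++ [a]) n := by
  refine ⟨fun c n => refA (lst c) n = false, ?_, fun a n => by simp only [lst_encode, refA_iff]⟩
  have h : Primrec fun p : ℕ × ℕ => refA (lst p.1) p.2 := by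
    unfold refA
    fun_prop
  exact Primrec.eq.comp h (Primrec.const false)

end Pool.Agent.MP_8ec908_lc.H65
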