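import Pool.Agent.MP_8ec908_lc.H65.Short
import Pool.Agent.MP_8ec908_lc.H65.NonVac

/-! Final assembly. -/

namespace Pool.Agent.MP_8ec908_lc.H65

open Pool.Agent.MP_8ec908_lc.Defs Pool.Agent.MP_8ec908_lc.H18 Pool.Agent.MP_8ec908_lc.H78 Function

theorem ar_relN {φ : Fm} (h : ArF φ) : ArF (relN φ) := by
  induction h with
  | bot => exact .bot
  | eq s t hs ht => exact .eq s t hs ht
  | imp a b _ _ ih1 ih2 => exact .imp _ _ ih1 ih2
  | all x a _ ih => exact .all _ _ (.imp _ _ (ar_NN (.var x)) ih)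

theorem free_relN {φ : Fm} {x : ℕ} (h : (relN φ).Free x) : φ.Free x := by
  induction φ with
  | imp a b ih1 ih2 => exact h.imp ih1 ih2
  | all y a ih => exact ⟨h.1, h.2.elim (fun h' => (h.1 (by simpa [NN] using h')).elim) ih⟩
  | _ => exact h

theorem final (ν : ℕ → Tm) (hν : ν = num ∨ ν = bnum) :
    (∃ g C, Numer ν (fun b => b.str.length) g C) ∧
    ∀ l : Fm → ℕ, (∀ b : Fm, {x | b.Free x}.encard + b.rank ≤ l b) → ∀ g C, Numer ν l g C →
      ∀ σ : Fm, ArF σ → σ.Closed → σ.Holds (fun _ => 0) →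
      ∃ a : Fm, ArF a ∧ a.Closed ∧ (¬ ∃ p, IsProof (Q ++ [a]) p ∧ Fm.bot ∈ p) ∧
        (∃ p, IsProof (Q ++ [a]) p ∧ relN σ ∈ p ∧ cutN add ∈ p ∧ cutN mul ∈ p) ∧
        ∃ k : ℕ, ∃ P : Polynomial ℕ, ∀ n : ℕ,
          ∃ p, IsProof (Q ++ [a]) p ∧ p.head? = some (conN ν C (g a) n) ∧ len p ≤ P.eval n ∧
            ∀ b ∈ p, ArF b ∧ Cx true k b ∧ b.rank ≤ k := by
  have hcl : ∀ n, Cl (ν n) := by
    rcases hν with rfl | rfl
    exacts [cl_num, cl_bnum]
  have har : ∀ n, ArT (ν n) := by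
    rcases hν with rfl | rfl
    exacts [arT_num, ar_bnum]
  have hval : ∀ n v, (ν n).val v = n := by
    rcases hν with rfl | rfl
    exacts [fun n v => num_val v n, fun n v => bnum_val v n]
  have heq : ∀ n, Prov Q (.eq (ν n) (num n)) ∧ Prov Q (.eq (num n) (ν n)) := by
    rcases hν with rfl | rfl
    exacts [fun n => ⟨Prov.logic (.refl _), Prov.logic (.refl _)⟩, prov_bnum]
  have hpf : PF Q fun n => .eq (ν n) (num n) := by
    rcases hν with rfl | rfl
    · exact PF.logic (fun n => .refl _) ⟨.lin 8 7 fun n => by simp; omega, 0, fun _ => le_rfl⟩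
    · obtain ⟨k, B, c, h⟩ := der_bnum
      exact PF.mk' (.lin 200 B fun n => le_rfl) ((Bd.const c).mul
        ((Bd.id.add (.const 1)).mul (Bd.id.add (.const 1)))) fun n =>
          (h n _ (by omega)).mono (by rw [sq])
  refine ⟨?_, fun l hl g C hN σ h1 h2 h3 => ?_⟩
  · obtain ⟨R, hR, h⟩ := primrec_noRef
    obtain ⟨C, h1, h2, hC⟩ := H9.m3b R hR
    refine ⟨fun a => Encodable.encode a.str, C, ⟨_, Primrec.encode, fun _ => rfl⟩, h1, h2,
      fun a _ _ n => ?_, fun a _ _ n hn => conN_prov (fun n => (heq n).symm) C _ n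
        ((hC _ n).2 ((h a n).2 hn)) h2 cl_num hcl⟩
    rw [← h a n, ← (hC _ n).1, holds_conN hval]
    exact (holds_conN (fun n v => num_val v n) C _ n _).symm
  have hc : ∀ f : Tm → Tm → Tm, f = add ∨ f = mul → ArF (cutN f) ∧ (cutN f).Closed ∧
      ∀ (U : Type) (H : ℕ) (β : Core U → ℕ) v, sat (MM H β) v (cutN f) := by
    rintro f (rfl | rfl)
    · refine ⟨.all _ _ (.all _ _ (.imp _ _ (ar_NN (.var _)) (.imp _ _ (ar_NN (.var _))
        (ar_NN (.add _ _ (.var _) (.var _)))))), fun x => by simp [cutN, NN]; omega,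
        fun U H β v d d' h h' => (sat_NN _ _).2 ?_⟩
      obtain ⟨x, hx⟩ := (sat_NN _ _).1 h
      obtain ⟨y, hy⟩ := (sat_NN _ _).1 h'
      exact ⟨x + y, by rw [mm_add, hx, hy]; rfl⟩
    · refine ⟨.all _ _ (.all _ _ (.imp _ _ (ar_NN (.var _)) (.imp _ _ (ar_NN (.var _))
        (ar_NN (.mul _ _ (.var _) (.var _)))))), fun x => by simp [cutN, NN]; omega,
        fun U H β v d d' h h' => (sat_NN _ _).2 ?_⟩
      obtain ⟨x, hx⟩ := (sat_NN _ _).1 h
      obtain ⟨y, hy⟩ := (sat_NN _ _).1 h'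
      exact ⟨x * y, by rw [mm_mul, hx, hy]; rfl⟩
  obtain ⟨a1, a2, a3⟩ := hc add (Or.inl rfl)
  obtain ⟨m1, m2, m3⟩ := hc mul (Or.inr rfl)
  have hZ : (conj (relN σ) (conj (cutN add) (cutN mul))).Closed :=
    conj_closed (fun x h => h2 x (free_relN h)) (conj_closed a2 m2)
  obtain ⟨a, H, ha, hac, hcon, hZp, hT⟩ := core l hl g C hN.primrec hN.arith hN.fv
    (fun a h h' n hn => conN_prov heq C _ n (hN.provable a h h' n hn) hN.fv hcl cl_num)
    (ar_conj (ar_relN h1) (ar_conj a1 m1)) hZ fun U H β v h => h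
      ((sat_relN h1 fun x hx => (h2 x hx).elim).2 h3) fun h => h (a3 U H β v) (m3 U H β v)
  have hQ : ∀ b ∈ Q, Prov (Q ++ [a]) b := fun b hb => Prov.ax (List.mem_append_left _ hb)
  refine ⟨a, ha, hac, hcon, ?_, PF.out (finish (H := H) hZ (fun b hb => List.mem_append_left _ hb)
    hcl har hpf ?_) (fun b hb => (List.mem_append.1 hb).elim (H47.arF_Q b)
      fun h => List.mem_singleton.1 h ▸ ha) fun n => ar_subst (ar_subst hN.arith 0 (har _)) 1 (har n)⟩
  · obtain ⟨q, hq, h⟩ := Prov.all_lines [relN σ, cutN add, cutN mul] (by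
      simp only [List.forall_mem_cons]
      exact ⟨hZp.conj_left, hZp.conj_right.conj_left, hZp.conj_right.conj_right, by simp⟩)
    exact ⟨q, hq, h _ (by simp), h _ (by simp), h _ (by simp)⟩
  · exact (all_mono 1 (leibniz 0 ((heq (g a)).1.cut hQ) ((heq (g a)).2.cut hQ) C).2.lift).mp hT

end Pool.Agent.MP_8ec908_lc.H65
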