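import Pool.Agent.MP_8ec908_lc.H65.Sound
import Pool.Agent.MP_8ec908_lc.H65.El
import Pool.Agent.MP_8ec908_lc.H47.M45

/-! The pseudo-model with stacks over the torus, and the transfer lemma. -/

namespace Pool.Agent.MP_8ec908_lc.H65

open Pool.Agent.MP_8ec908_lc.Defs Pool.Agent.MP_8ec908_lc.H47 Function Sum

/-- Atoms. -/
abbrev UU (m : ℕ) : Type := TE m × ZMod 2

/-- An entry with default value `0`. -/
def gv {U : Type} (o : Option (ℕ ⊕ U)) : ℕ ⊕ U := o.getD (inl 0)

/-- The entry is a number. -/
def IsO {U : Type} (o : Option (ℕ ⊕ U)) : Prop := ∃ x, o = some (inl x)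

open Classical in
/-- Indicator. -/
noncomputable def ind (p : Prop) : ℕ := if p then 1 else 0

theorem ind_lt (p : Prop) : ind p < 2 := by unfold ind; split_ifs <;> omega

theorem ind_eq (p : Prop) : ind p = 1 ↔ p := by unfold ind; split_ifs <;> simp [*]

section
variable {m : ℕ}

def suppC (f : Core (UU m)) : Set (TE m) := ⋃ i, suppD (gv (f i))

def suppE : El (UU m) → Set (TE m)
  | inl x => suppD x
  | inr s => suppC s.1

noncomputable def flipC (e : TE m) (f : Core (UU m)) : Core (UU m) := fun i => (f i).map (flipD e)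

noncomputable def flipE (e : TE m) : El (UU m) → El (UU m)
  | inl x => inl (flipD e x)
  | inr s => inr (flipC e s.1, s.2)

open Classical in
/-- The value read off a full stack. -/
noncomputable def βa (n1 : ℕ) (a : Co) (f : Core (UU m)) : ℕ :=
  if f 0 = some (inl 0) then XX 2 2 ![gv (f 2), gv (f 1)] a
  else if f 0 = some (inl 1) then XX 0 8 ![gv (f 8), gv (f 7), gv (f 6), gv (f 5), gv (f 4),
    gv (f 3), gv (f 2), gv (f 1)] a
  else if f 0 = some (inl 2) then ind (IsO (f 1))
  else if f 0 = some (inl 3) then ind (∀ x, f 1 = some (inl x) → n1 ≤ x)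
  else ind (IsO (f 4) ∧ IsO (f 3) ∧ IsO (f 2) ∧
    proj m (dir (gv (f 5))) (ptD (gv (f 4)) (gv (f 3)) (gv (f 2))) ∈ suppD (gv (f 1)))

theorem gv_map (e : TE m) (o : Option (DD m)) : gv (o.map (flipD e)) = flipD e (gv o) := by
  cases o <;> rfl

theorem map_eq_num (e : TE m) (o : Option (DD m)) (x : ℕ) :
    o.map (flipD e) = some (inl x) ↔ o = some (inl x) := by
  rcases o with _ | n | u <;> simp [flipD_inr]

theorem βa_loc (n1 : ℕ) {a a' : Co} (f : Core (UU m)) (h : Cob (suppC f) (a + a')) :
    βa n1 a f = βa n1 a' f := by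
  unfold βa
  rw [XX_loc 0 8 _ a a' (h.mono ?_)]
  · rfl
  · refine Set.iUnion_subset fun i => ?_
    fin_cases i <;> exact Set.subset_iUnion (fun i => suppD (gv (f i))) _

theorem βa_flip (n1 : ℕ) (a : Co) (e : TE m) (f : Core (UU m)) :
    βa n1 (a + indE e) (flipC e f) = βa n1 a f := by
  have h : ∀ o : Option (DD m), IsO (o.map (flipD e)) ↔ IsO o := fun o => by
    simp only [IsO, map_eq_num]
  unfold βa
  simp only [flipC, h, map_eq_num, gv_map, dir, ptD, getN_flip, supp_flip, XX, bit_flip,
    rhoZ_flip, Matrix.cons_val]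

theorem βa_lt (n1 : ℕ) (a : Co) (f : Core (UU m)) : βa n1 a f < 2 := by
  unfold βa
  split_ifs
  exacts [ZMod.val_lt (n := 2) _, ZMod.val_lt (n := 2) _, ind_lt _, ind_lt _, ind_lt _]

/-- Cores with a value that does not depend on the state. -/
def cc (b j : ℕ) : Core (UU m) := fun i =>
  if i = 0 then some (inl 2) else if i = 1 then (if b = 0 then none else some (inl 0))
  else some (inl j)

theorem cc_inj (b : ℕ) : Injective (cc (m := m) b) := fun j j' h => by
  simpa [cc] using congrFun h 2

theorem βa_cc (n1 : ℕ) (a : Co) {b : ℕ} (hb : b < 2) (j : ℕ) : βa n1 a (cc (m := m) b j) = b := by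
  interval_cases b <;> simp [βa, cc, IsO, ind]

theorem suppC_push (H : ℕ) (o : Option (DD m)) (s : Core (UU m) × ℕ) :
    suppC (push H o s).1 ⊆ suppD (gv o) ∪ suppC s.1 := by
  refine Set.iUnion_subset fun i => ?_
  simp only [push]
  split_ifs
  · exact Set.subset_union_left
  · exact (Set.subset_iUnion (fun i => suppD (gv (s.1 i))) i).trans Set.subset_union_right

theorem supp_pr (x : El (UU m)) : suppD (gv (pr x)) ⊆ suppE x := by
  rcases x with x | s
  exacts [subset_rfl, Set.empty_subset _]

theorem flip_push (H : ℕ) (e : TE m) (o : Option (DD m)) (s : Core (UU m) × ℕ) :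
    push H (o.map (flipD e)) (flipC e s.1, s.2) = (flipC e (push H o s).1, (push H o s).2) := by
  simp only [push, Prod.mk.injEq, and_true]
  funext i
  simp only [flipC]
  split_ifs <;> rfl

theorem flipD_invol (e : TE m) (d : DD m) : flipD e (flipD e d) = d := by
  rcases d with n | ⟨e', b⟩
  · rfl
  · simp only [flipD_inr]
    split_ifs
    · rw [add_assoc, show (1 : ZMod 2) + 1 = 0 from rfl, add_zero]
    · rfl

theorem flipD_not (e : TE m) (d : DD m) (h : e ∉ suppD d) : flipD e d = d := by
  rcases d with n | ⟨e', b⟩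
  · rfl
  · rw [flipD_inr, if_neg]
    exact fun h' => h h'.symm

theorem suppE_card (d : El (UU m)) : (suppE d).encard ≤ 16 := by
  have h1 : ∀ x : DD m, ∃ e, suppD x ⊆ {e} := by
    rintro (n | u)
    exacts [⟨default, Set.empty_subset _⟩, ⟨_, subset_rfl⟩]
  choose g hg using h1
  rcases d with x | s
  · exact (Set.encard_le_encard (hg x)).trans (by simp)
  · have : suppC s.1 ⊆ (fun i => g (gv (s.1 i))) '' Set.univ :=
      Set.iUnion_subset fun i e he => ⟨i, trivial, (hg _ he).symm⟩
    refine (Set.encard_le_encard this).trans ((Set.encard_image_le _ _).trans ?_)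
    rw [Set.encard_univ, ENat.card_eq_coe_fintype_card, Fintype.card_fin]
    decide

theorem supp_dAdd (H : ℕ) (x y : El (UU m)) : suppE (dAdd H x y) ⊆ suppE x ∪ suppE y := by
  rcases y with y | s
  · rcases x with (a | u) | s <;> rcases y with b | u' <;> simp [dAdd, suppE]
  · exact (suppC_push H _ s).trans (Set.union_subset_union_left _ (supp_pr x))

theorem supp_dMul (H : ℕ) (β : Core (UU m) → ℕ) (x y : El (UU m)) :
    suppE (dMul H β x y) ⊆ suppE x ∪ suppE y := by
  have h0 : ∀ o s, suppD (gv o) = ∅ → suppE (inr (push H o s) : El (UU m)) ⊆ suppE (inr s) :=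
    fun o s h => by simpa [h, suppE] using suppC_push H o s
  rcases x with ((_ | a) | u) | s <;> rcases y with ((_ | _ | b) | u') | s' <;>
    first
    | exact (h0 _ _ rfl).trans Set.subset_union_left
    | simp [dMul, suppE]

theorem flip_dAdd (H : ℕ) (e : TE m) (x y : El (UU m)) :
    dAdd H (flipE e x) (flipE e y) = flipE e (dAdd H x y) := by
  rcases y with y | s
  · rcases x with (a | u) | s <;> rcases y with b | u' <;> rfl
  · have : pr (flipE e x) = (pr x).map (flipD e) := by cases x <;> rfl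
    simp only [flipE, dAdd]
    rw [← flip_push, ← this]
    rfl

theorem flip_dMul (H : ℕ) {β β' : Core (UU m) → ℕ} (e : TE m) (h : ∀ f, β' (flipC e f) = β f)
    (x y : El (UU m)) : dMul H β' (flipE e x) (flipE e y) = flipE e (dMul H β x y) := by
  rcases x with ((_ | a) | u) | s <;> rcases y with ((_ | _ | b) | u') | s' <;>
    first
    | rfl
    | exact congrArg inr (flip_push H e none s)
    | exact congrArg inr (flip_push H e (some (inl 0)) s)
    | simp only [flipE, flipD_inl, dMul, h]

theorem dMul_loc (H n1 : ℕ) {a a' : Co} (x y : El (UU m)) (h : Cob (suppE y) (a + a')) :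
    dMul H (βa n1 a) x y = dMul H (βa n1 a') x y := by
  rcases x with ((_ | b) | u) | s <;> rcases y with ((_ | _ | b) | u') | s' <;>
    first | rfl | simp only [dMul, βa_loc n1 _ h]

end

/-- The pseudo-model. -/
noncomputable def PX (H n1 : ℕ) : PW where
  toGeo := torus (2 * n1 + 1) (per_ne n1)
  D := El (UU (2 * n1 + 1))
  supp := suppE
  supp_card := suppE_card
  d0 := inl (inl 0)
  supp_d0 := rfl
  flipD := flipE
  flipD_flipD e d := by
    rcases d with x | s
    · exact congrArg inl (flipD_invol e x)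
    · refine congrArg inr (Prod.ext (funext fun i => ?_) rfl)
      show ((s.1 i).map _).map _ = _
      cases s.1 i
      exacts [rfl, congrArg some (flipD_invol e _)]
  supp_flipD e d := by
    rcases d with x | s
    · exact supp_flip e x
    · simp only [flipE, suppE, suppC, flipC, gv_map, supp_flip]
  flipD_of_not e d h := by
    rcases d with x | s
    · exact congrArg inl (flipD_not e x h)
    · refine congrArg inr (Prod.ext (funext fun i => ?_) rfl)
      show (s.1 i).map _ = _
      have h1 : e ∉ suppD (gv (s.1 i)) := fun h' => h (Set.mem_iUnion.2 ⟨i, h'⟩)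
      revert h1
      cases s.1 i
      exacts [fun _ => rfl, fun h1 => congrArg some (flipD_not e _ h1)]
  fn k n ds a := dFn H (βa n1 a) k n ds
  supp_fn k n ds a := by
    rcases dFn_cases (U := UU (2 * n1 + 1)) k n with ⟨rfl, rfl⟩ | ⟨rfl, rfl⟩ | ⟨rfl, rfl⟩ | h
    · refine subset_trans ?_ (Set.subset_iUnion _ 0)
      show suppE (dS (ds 0)) ⊆ _
      rcases ds 0 with (n | u) | s <;> exact subset_rfl
    · exact (supp_dAdd H _ _).trans
        (Set.union_subset (Set.subset_iUnion (fun i => suppE (ds i)) 0)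
          (Set.subset_iUnion (fun i => suppE (ds i)) 1))
    · exact (supp_dMul H _ _ _).trans
        (Set.union_subset (Set.subset_iUnion (fun i => suppE (ds i)) 0)
          (Set.subset_iUnion (fun i => suppE (ds i)) 1))
    · rw [h]; exact Set.empty_subset _
  fn_loc k n ds a a' hE := by
    rcases dFn_cases (U := UU (2 * n1 + 1)) k n with ⟨rfl, rfl⟩ | ⟨rfl, rfl⟩ | ⟨rfl, rfl⟩ | h
    · rfl
    · rfl
    · exact dMul_loc H n1 _ _ (Cob.mono (Set.subset_iUnion (fun i => suppE (ds i)) 1) hE)
    · rw [h, h]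
  fn_flip k n ds a e := by
    rcases dFn_cases (U := UU (2 * n1 + 1)) k n with ⟨rfl, rfl⟩ | ⟨rfl, rfl⟩ | ⟨rfl, rfl⟩ | h
    · show dS (flipE e (ds 0)) = flipE e (dS (ds 0))
      rcases ds 0 with (n | u) | s <;> rfl
    · exact flip_dAdd H e _ _
    · exact flip_dMul H e (βa_flip n1 a e) _ _
    · rw [h, h]; rfl

section
variable {H n1 : ℕ}

theorem PX_ev (v : ℕ → El (UU (2 * n1 + 1))) (a : Co) (t : Tm) :
    (PX H n1).ev v a t = H18.ev (MM H (βa n1 a)) v t := by
  induction t with
  | var i => rfl
  | app k n ts ih => exact congrArg (dFn H (βa n1 a) k n) (funext ih)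

/-- Transfer between the pseudo-model and the structure at the state `0`. -/
theorem transfer {s : ℕ} {φ : Fm} (hφ : ArF φ) : ∀ {g : ℕ} {a : Co} {S : Set (TE (2 * n1 + 1))}
    {R : El (UU (2 * n1 + 1)) → El (UU (2 * n1 + 1)) → Prop} {v w : ℕ → El (UU (2 * n1 + 1))},
    φ.str.length ≤ s → 2 ^ φ.rank * s ≤ g → 9 + g < H →
    Cons H g (fun f f' => βa n1 a f = βa n1 0 f') R → {p : _ × _ | R p.1 p.2}.Finite →
    (∀ x y, R x y → suppE x ⊆ S) → GoodC S a → S.encard + 16 * φ.rank < (PX H n1).m →
    (∀ i, φ.Free i → R (v i) (w i)) →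
    ((PX H n1).Sat φ v a ↔ H18.sat (MM H (βa n1 0)) w φ) := by
  induction hφ with
  | bot => intros; rfl
  | eq t u ht hu =>
    intro g a S R v w hs hg hH c _ _ _ _ hv
    simp only [Fm.rank, pow_zero, one_mul] at hg
    simp only [Fm.str, List.length_cons, List.length_append] at hs
    have c1 := c.mono (g' := 0 + s) (by omega) (fun _ _ h => h) fun _ _ _ _ _ h => h
    rw [PW.sat_eq, PX_ev, PX_ev]
    exact (cons_iter s c1 (by omega)).eq_iff
      (tm_rel ht s 0 (by omega) c1 (by omega) fun i hi => hv i (Or.inl hi))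
      (tm_rel hu s 0 (by omega) c1 (by omega) fun i hi => hv i (Or.inr hi))
  | imp φ ψ _ _ ih1 ih2 =>
    intro g a S R v w hs hg hH c hf hS hG hc hv
    simp only [Fm.str, List.length_cons, List.length_append] at hs
    have h1 : ∀ r, r ≤ (Fm.imp φ ψ).rank → 2 ^ r * s ≤ g := fun r hr =>
      (Nat.mul_le_mul_right _ (Nat.pow_le_pow_right (by omega) hr)).trans hg
    exact imp_congr
      (ih1 (by omega) (h1 _ (le_max_left _ _)) hH c hf hS hG
        (PW.rank_mono (P := PX H n1) hc (le_max_left _ _)) fun i hi => hv i (Or.inl hi))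
      (ih2 (by omega) (h1 _ (le_max_right _ _)) hH c hf hS hG
        (PW.rank_mono (P := PX H n1) hc (le_max_right _ _)) fun i hi => hv i (Or.inr hi))
  | all x φ _ ih =>
    intro g a S R v w hs hg hH c hf hS hG hc hv
    simp only [Fm.str, List.length_cons, List.length_append] at hs
    simp only [Fm.rank, pow_succ] at hg
    have hc1 := PW.rank_one (P := PX H n1) hc (Nat.le_add_left _ _)
    have step : ∀ d d' a', GoodC (S ∪ suppE d) a' → Cons H (2 ^ φ.rank * s)
        (fun f f' => βa n1 a' f = βa n1 0 f') (fun p q => R p q ∨ (p = d ∧ q = d')) →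
        ((PX H n1).Sat φ (update v x d) a' ↔ H18.sat (MM H (βa n1 0)) (update w x d') φ) := by
      intro d d' a' h1 h2
      refine ih (by omega) le_rfl (by nlinarith) h2 ?_ ?_ h1
        (PW.rank_step (P := PX H n1) hc d) fun i hi => ?_
      · exact (hf.insert (d, d')).subset fun p hp =>
          hp.elim Or.inr fun h => Or.inl (Prod.ext h.1 h.2)
      · rintro p q (h | ⟨rfl, rfl⟩)
        exacts [(hS _ _ h).trans Set.subset_union_left, Set.subset_union_right]
      · by_cases hi' : i = x
        · subst hi'; simp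
        · rw [update_of_ne hi', update_of_ne hi']
          exact Or.inl (hv i ⟨Ne.symm hi', hi⟩)
    have loc : ∀ a', Cob S (a + a') → ∀ f f' h h', R (inr (f, h)) (inr (f', h')) →
        βa n1 a f = βa n1 0 f' → βa n1 a' f = βa n1 0 f' := fun a' he f f' h h' r h1 =>
      (βa_loc n1 f (he.mono (hS _ _ r))).symm.trans h1
    rw [PW.key (P := PX H n1) (S := S) hG (fun e ⟨i, hi, he⟩ => hS _ _ (hv i hi) he) hc1]
    constructor
    · intro h d'
      have c1 : Cons H (2 * (2 ^ φ.rank * s))
          (fun f f' => ∀ a', Cob S (a + a') → βa n1 a' f = βa n1 0 f') R :=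
        c.mono (by nlinarith) (fun _ _ h => h) fun f f' h h' r h1 a' he => loc a' he _ _ _ _ r h1
      obtain ⟨d, c2⟩ := c1.symm.ext (by nlinarith)
        ((hf.image Prod.swap).subset fun p hp => ⟨p.swap, hp, rfl⟩)
        (fun f => ⟨cc (βa n1 0 f), cc_inj _, fun j a' _ => βa_cc n1 a' (βa_lt _ _ _) j⟩) d'
      obtain ⟨a', h1, h2⟩ := PW.ext_supp (P := PX H n1) d hG
        (lt_of_le_of_lt (PW.encard_union_supp (P := PX H n1) S d) hc1)
      exact (step d d' a' h1 (c2.symm.mono le_rfl (fun _ _ h => h.imp id And.symm)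
        fun _ _ _ _ _ h => h a' h2)).1 (h d a' h1 h2)
    · intro h d a' h1 h2
      have c1 : Cons H (2 * (2 ^ φ.rank * s)) (fun f f' => βa n1 a' f = βa n1 0 f') R :=
        c.mono (by nlinarith) (fun _ _ h => h) (loc a' h2)
      obtain ⟨d', c2⟩ := c1.ext (by nlinarith) hf
        (fun f => ⟨cc (βa n1 a' f), cc_inj _, fun j => (βa_cc n1 0 (βa_lt _ _ _) j).symm⟩) d
      exact (step d d' a' h1 c2).2 (h d')

end

end Pool.Agent.MP_8ec908_lc.H65
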