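import Pool.Agent.MP_8ec908_lc.H47.Sound

/-! Pseudo-models whose elements have at most 16 edges below them. -/

namespace Pool.Agent.MP_8ec908_lc.H65

open Pool.Agent.MP_8ec908_lc.Defs Pool.Agent.MP_8ec908_lc.H47 Function

/-- A pseudo-model over a geometry. -/
structure PW extends Geo where
  D : Type
  supp : D → Set E
  supp_card : ∀ d, (supp d).encard ≤ 16
  d0 : D
  supp_d0 : supp d0 = ∅
  flipD : E → D → D
  flipD_flipD : ∀ e d, flipD e (flipD e d) = d
  supp_flipD : ∀ e d, supp (flipD e d) = supp d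
  flipD_of_not : ∀ e d, e ∉ supp d → flipD e d = d
  fn : (k n : ℕ) → (Fin n → D) → Ω → D
  supp_fn : ∀ k n ds a, supp (fn k n ds a) ⊆ ⋃ i, supp (ds i)
  fn_loc : ∀ k n ds a a', Eqv (⋃ i, supp (ds i)) a a' → fn k n ds a = fn k n ds a'
  fn_flip : ∀ k n ds a e, fn k n (fun i => flipD e (ds i)) (flip e a) = flipD e (fn k n ds a)

namespace PW

variable (P : PW)

/-- Value of a term. -/
def ev (v : ℕ → P.D) (a : P.Ω) : Tm → P.D
  | .var i => v i
  | .app k n ts => P.fn k n (fun i => ev v a (ts i)) a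

/-- Edges under the variables of a term. -/
def St (t : Tm) (v : ℕ → P.D) : Set P.E := {e | ∃ x, t.Occ x ∧ e ∈ P.supp (v x)}

/-- Edges under the free variables of a formula. -/
def Sf (φ : Fm) (v : ℕ → P.D) : Set P.E := {e | ∃ x, φ.Free x ∧ e ∈ P.supp (v x)}

/-- Satisfaction in the pseudo-model. -/
def Sat : Fm → (ℕ → P.D) → P.Ω → Prop
  | .bot, _, _ => False
  | .eq s t, v, a => P.ev v a s = P.ev v a t
  | .rel _ _ _, _, _ => False
  | .imp φ ψ, v, a => Sat φ v a → Sat ψ v a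
  | .all x φ, v, a => ∀ d a', P.Good (P.Sf (.all x φ) v ∪ P.supp d) a' →
      P.Eqv (P.Sf (.all x φ) v) a a' → Sat φ (update v x d) a'

/-- Validity at a valuation. -/
def Loc (φ : Fm) (v : ℕ → P.D) : Prop := ∀ a, P.Good (P.Sf φ v) a → P.Sat φ v a

/-- Validity. -/
def Valid (φ : Fm) : Prop := ∀ v, P.Loc φ v

variable {P}

@[simp] theorem ev_var (v : ℕ → P.D) (a : P.Ω) (i : ℕ) : P.ev v a (.var i) = v i := rfl
@[simp] theorem ev_app (v : ℕ → P.D) (a : P.Ω) (k n : ℕ) (ts : Fin n → Tm) :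
    P.ev v a (.app k n ts) = P.fn k n (fun i => P.ev v a (ts i)) a := rfl
@[simp] theorem sat_bot (v : ℕ → P.D) (a : P.Ω) : P.Sat .bot v a ↔ False := Iff.rfl
@[simp] theorem sat_eq (s t : Tm) (v : ℕ → P.D) (a : P.Ω) :
    P.Sat (.eq s t) v a ↔ P.ev v a s = P.ev v a t := Iff.rfl
@[simp] theorem sat_rel (k n : ℕ) (ts : Fin n → Tm) (v : ℕ → P.D) (a : P.Ω) :
    P.Sat (.rel k n ts) v a ↔ False := Iff.rfl
@[simp] theorem sat_imp (φ ψ : Fm) (v : ℕ → P.D) (a : P.Ω) :
    P.Sat (.imp φ ψ) v a ↔ (P.Sat φ v a → P.Sat ψ v a) := Iff.rfl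
@[simp] theorem sat_neg (φ : Fm) (v : ℕ → P.D) (a : P.Ω) :
    P.Sat (neg φ) v a ↔ ¬ P.Sat φ v a := Iff.rfl
theorem sat_all (x : ℕ) (φ : Fm) (v : ℕ → P.D) (a : P.Ω) :
    P.Sat (.all x φ) v a ↔ ∀ d a', P.Good (P.Sf (.all x φ) v ∪ P.supp d) a' →
      P.Eqv (P.Sf (.all x φ) v) a a' → P.Sat φ (update v x d) a' := Iff.rfl

theorem St_app_sub {k n : ℕ} (ts : Fin n → Tm) (i : Fin n) (v : ℕ → P.D) :
    P.St (ts i) v ⊆ P.St (.app k n ts) v := by
  rintro e ⟨x, hx, he⟩
  exact ⟨x, ⟨i, hx⟩, he⟩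

theorem supp_ev (t : Tm) (v : ℕ → P.D) (a : P.Ω) : P.supp (P.ev v a t) ⊆ P.St t v := by
  induction t with
  | var i => intro e he; exact ⟨i, rfl, he⟩
  | app k n ts ih =>
    refine (P.supp_fn _ _ _ _).trans (Set.iUnion_subset fun i => (ih i).trans (St_app_sub ts i v))

theorem ev_congr (t : Tm) {v w : ℕ → P.D} (a : P.Ω) (h : ∀ x, t.Occ x → v x = w x) :
    P.ev v a t = P.ev w a t := by
  induction t with
  | var i => exact h i rfl
  | app k n ts ih =>
    simp only [ev_app]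
    congr 1
    funext i
    exact ih i fun x hx => h x ⟨i, hx⟩

theorem ev_loc (t : Tm) (v : ℕ → P.D) {a a' : P.Ω} (h : P.Eqv (P.St t v) a a') :
    P.ev v a t = P.ev v a' t := by
  induction t with
  | var i => rfl
  | app k n ts ih =>
    simp only [ev_app]
    have h1 : (fun i => P.ev v a (ts i)) = fun i => P.ev v a' (ts i) :=
      funext fun i => ih i (P.eqv_mono (St_app_sub ts i v) h)
    rw [← h1]
    refine P.fn_loc _ _ _ _ _ (P.eqv_mono ?_ h)
    exact Set.iUnion_subset fun i => (supp_ev _ _ _).trans (St_app_sub ts i v)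

theorem ev_flip (t : Tm) (v : ℕ → P.D) (a : P.Ω) (e : P.E) :
    P.ev (fun x => P.flipD e (v x)) (P.flip e a) t = P.flipD e (P.ev v a t) := by
  induction t with
  | var i => rfl
  | app k n ts ih =>
    simp only [ev_app]
    rw [← P.fn_flip]
    congr 1
    funext i
    exact ih i

theorem ev_subst (t : Tm) (x : ℕ) (u : Tm) (v : ℕ → P.D) (a : P.Ω) :
    P.ev v a (t.subst x u) = P.ev (update v x (P.ev v a u)) a t := by
  induction t with
  | var i =>
    by_cases h : i = x
    · subst h; simp [Tm.subst]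
    · simp [Tm.subst, h]
  | app k n ts ih =>
    simp only [Tm.subst, ev_app]
    congr 1
    funext i
    exact ih i

theorem Sf_congr (φ : Fm) {v w : ℕ → P.D} (h : ∀ x, φ.Free x → v x = w x) :
    P.Sf φ v = P.Sf φ w := by
  ext e
  constructor
  · rintro ⟨x, hx, he⟩; exact ⟨x, hx, h x hx ▸ he⟩
  · rintro ⟨x, hx, he⟩; exact ⟨x, hx, (h x hx).symm ▸ he⟩

theorem Sf_imp_left (φ ψ : Fm) (v : ℕ → P.D) : P.Sf φ v ⊆ P.Sf (.imp φ ψ) v := by
  rintro e ⟨x, hx, he⟩; exact ⟨x, Or.inl hx, he⟩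

theorem Sf_imp_right (φ ψ : Fm) (v : ℕ → P.D) : P.Sf ψ v ⊆ P.Sf (.imp φ ψ) v := by
  rintro e ⟨x, hx, he⟩; exact ⟨x, Or.inr hx, he⟩

theorem Sf_update (x : ℕ) (φ : Fm) (v : ℕ → P.D) (d : P.D) :
    P.Sf φ (update v x d) ⊆ P.Sf (.all x φ) v ∪ P.supp d := by
  rintro e ⟨y, hy, he⟩
  by_cases h : y = x
  · subst h; right; simpa using he
  · left
    rw [update_of_ne h] at he
    exact ⟨y, ⟨Ne.symm h, hy⟩, he⟩

theorem Sf_neg (φ : Fm) (v : ℕ → P.D) : P.Sf (neg φ) v = P.Sf φ v := by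
  ext e
  constructor
  · rintro ⟨x, hx | hx, he⟩
    · exact ⟨x, hx, he⟩
    · exact hx.elim
  · rintro ⟨x, hx, he⟩; exact ⟨x, Or.inl hx, he⟩

theorem Sf_closed {φ : Fm} (h : φ.Closed) (v : ℕ → P.D) : P.Sf φ v = ∅ := by
  ext e
  constructor
  · rintro ⟨x, hx, -⟩; exact (h x hx).elim
  · intro h; exact h.elim

/-- Coincidence lemma. -/
theorem sat_congr (φ : Fm) : ∀ {v w : ℕ → P.D} (a : P.Ω), (∀ x, φ.Free x → v x = w x) →
    (P.Sat φ v a ↔ P.Sat φ w a) := by
  induction φ with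
  | bot => intro v w a _; rfl
  | eq s t =>
    intro v w a h
    rw [sat_eq, sat_eq, ev_congr s a fun x hx => h x (Or.inl hx),
      ev_congr t a fun x hx => h x (Or.inr hx)]
  | rel k n ts => intro v w a _; rfl
  | imp φ ψ ih1 ih2 =>
    intro v w a h
    rw [sat_imp, sat_imp, ih1 a fun x hx => h x (Or.inl hx), ih2 a fun x hx => h x (Or.inr hx)]
  | all y φ ih =>
    intro v w a h
    rw [sat_all, sat_all, Sf_congr _ h]
    refine forall_congr' fun d => forall_congr' fun a' => forall_congr' fun _ =>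
      forall_congr' fun _ => ih a' fun x hx => ?_
    by_cases hxy : x = y
    · subst hxy; simp
    · rw [update_of_ne hxy, update_of_ne hxy]
      exact h x ⟨Ne.symm hxy, hx⟩

/-- Locality. -/
theorem sat_loc (φ : Fm) : ∀ (v : ℕ → P.D) {a a' : P.Ω}, P.Eqv (P.Sf φ v) a a' →
    (P.Sat φ v a ↔ P.Sat φ v a') := by
  induction φ with
  | bot => intro v a a' _; rfl
  | eq s t =>
    intro v a a' h
    rw [sat_eq, sat_eq, ev_loc s v (P.eqv_mono _ h), ev_loc t v (P.eqv_mono _ h)]
    · rintro e ⟨x, hx, he⟩; exact ⟨x, Or.inr hx, he⟩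
    · rintro e ⟨x, hx, he⟩; exact ⟨x, Or.inl hx, he⟩
  | rel k n ts => intro v a a' _; rfl
  | imp φ ψ ih1 ih2 =>
    intro v a a' h
    rw [sat_imp, sat_imp, ih1 v (P.eqv_mono (Sf_imp_left φ ψ v) h),
      ih2 v (P.eqv_mono (Sf_imp_right φ ψ v) h)]
  | all y φ _ =>
    intro v a a' h
    rw [sat_all, sat_all]
    exact ⟨fun H d b hb he => H d b hb (P.eqv_trans h he),
      fun H d b hb he => H d b hb (P.eqv_trans (P.eqv_symm h) he)⟩

theorem sat_loc' {φ : Fm} {v : ℕ → P.D} {a a' : P.Ω} {S : Set P.E} (hS : P.Sf φ v ⊆ S)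
    (h : P.Eqv S a a') : P.Sat φ v a ↔ P.Sat φ v a' := sat_loc φ v (P.eqv_mono hS h)

theorem Sf_flip (φ : Fm) (v : ℕ → P.D) (e : P.E) :
    P.Sf φ (fun x => P.flipD e (v x)) = P.Sf φ v := by
  simp only [Sf, P.supp_flipD]

/-- Gauge invariance. -/
theorem sat_flip (φ : Fm) (e : P.E) : ∀ (v : ℕ → P.D) (a : P.Ω),
    (P.Sat φ (fun x => P.flipD e (v x)) (P.flip e a) ↔ P.Sat φ v a) := by
  induction φ with
  | bot => intro v a; rfl
  | eq s t =>
    intro v a
    rw [sat_eq, sat_eq, ev_flip, ev_flip]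
    exact (Involutive.injective (P.flipD_flipD e)).eq_iff
  | rel k n ts => intro v a; rfl
  | imp φ ψ ih1 ih2 =>
    intro v a
    rw [sat_imp, sat_imp, ih1, ih2]
  | all y φ ih =>
    intro v a
    rw [sat_all, sat_all, Sf_flip]
    have hu : ∀ d, update (fun x => P.flipD e (v x)) y (P.flipD e d) =
        fun x => P.flipD e (update v y d x) := by
      intro d
      funext x
      by_cases h : x = y
      · subst h; simp
      · simp [update_of_ne h]
    constructor
    · intro H d b hb he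
      have := H (P.flipD e d) (P.flip e b) (by rw [P.supp_flipD]; exact P.good_flip e hb)
        (P.eqv_flip e he)
      rw [hu, ih] at this
      exact this
    · intro H d b hb he
      have h1 := H (P.flipD e d) (P.flip e b) (by rw [P.supp_flipD]; exact P.good_flip e hb)
        (by simpa only [P.flip_flip] using P.eqv_flip e he)
      rw [← ih, ← hu, P.flipD_flipD, P.flip_flip] at h1
      exact h1

theorem encard_union_supp (S : Set P.E) (d : P.D) : (S ∪ P.supp d).encard ≤ S.encard + 16 :=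
  (Set.encard_union_le _ _).trans (add_le_add_right (P.supp_card d) _)

/-- Extension to any small superset. -/
theorem ext_sup {S T : Set P.E} {a : P.Ω} (hST : S ⊆ T) (hg : P.Good S a)
    (hc : T.encard < P.m) : ∃ a', P.Good T a' ∧ P.Eqv S a a' := by
  have hT : T.Finite := Set.encard_lt_top_iff.1 (lt_of_lt_of_le hc le_top)
  have key : ∀ U : Set P.E, U.Finite → U ⊆ T → ∃ a', P.Good (S ∪ U) a' ∧ P.Eqv S a a' := by
    intro U hU
    induction U, hU using Set.Finite.induction_on with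
    | empty => intro _; exact ⟨a, by simpa using hg, P.eqv_refl _ _⟩
    | @insert e U _ _ ih =>
      intro hsub
      obtain ⟨a', h1, h2⟩ := ih ((Set.subset_insert _ _).trans hsub)
      have hc' : (insert e (S ∪ U)).encard < P.m := by
        refine lt_of_le_of_lt (Set.encard_le_encard ?_) hc
        rw [← Set.union_insert]
        exact Set.union_subset hST hsub
      obtain ⟨a'', h3, h4⟩ := P.ext e h1 hc'
      refine ⟨a'', by rwa [Set.union_insert], P.eqv_trans h2 (P.eqv_mono Set.subset_union_left h4)⟩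
  obtain ⟨a', h1, h2⟩ := key T hT subset_rfl
  exact ⟨a', P.good_mono Set.subset_union_right h1, h2⟩

/-- One extension step over the support of an element. -/
theorem ext_supp {S : Set P.E} {a : P.Ω} (d : P.D) (hg : P.Good S a)
    (hc : (S ∪ P.supp d).encard < P.m) : ∃ a', P.Good (S ∪ P.supp d) a' ∧ P.Eqv S a a' :=
  ext_sup Set.subset_union_left hg hc

theorem good_flips {S : Set P.E} (F : List P.E) {a : P.Ω} (h : P.Good S a) :
    P.Good S (F.foldr P.flip a) := by
  induction F with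
  | nil => exact h
  | cons e F ih => exact P.good_flip e ih

theorem fib_many {S T : Set P.E} {a b : P.Ω} (hc : (S ∪ T).encard < P.m) (ha : P.Good (S ∪ T) a)
    (hb : P.Good (S ∪ T) b) (h : P.Eqv S a b) :
    ∃ F : List P.E, (∀ e ∈ F, e ∉ S) ∧ P.Eqv (S ∪ T) a (F.foldr P.flip b) := by
  have hT : T.Finite := (Set.encard_lt_top_iff.1 (lt_of_lt_of_le hc le_top)).subset
    Set.subset_union_right
  induction T, hT using Set.Finite.induction_on with
  | empty => exact ⟨[], by simp, by simpa using h⟩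
  | @insert e T _ _ ih =>
    have hs : S ∪ T ⊆ S ∪ insert e T := Set.union_subset_union_right _ (Set.subset_insert _ _)
    obtain ⟨F, h1, h2⟩ := ih (lt_of_le_of_lt (Set.encard_le_encard hs) hc) (P.good_mono hs ha)
      (P.good_mono hs hb)
    rw [Set.union_insert] at *
    by_cases he : e ∈ S
    · exact ⟨F, h1, by rwa [Set.insert_eq_of_mem (Set.mem_union_left T he)]⟩
    rcases P.fib e hc ha (good_flips F hb) h2 with h3 | h3
    · exact ⟨F, h1, h3⟩
    · exact ⟨e :: F, by simpa [he] using h1, h3⟩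

theorem sat_flips (φ : Fm) (F : List P.E) (v : ℕ → P.D) (a : P.Ω) :
    P.Sat φ (fun x => F.foldr P.flipD (v x)) (F.foldr P.flip a) ↔ P.Sat φ v a := by
  induction F with
  | nil => rfl
  | cons e F ih => exact (sat_flip φ e _ _).trans ih

theorem flips_fix (F : List P.E) (d : P.D) (h : ∀ e ∈ F, e ∉ P.supp d) :
    F.foldr P.flipD d = d := by
  induction F with
  | nil => rfl
  | cons e F ih =>
    rw [List.foldr_cons, ih fun e he => h e (List.mem_cons_of_mem _ he)]
    exact P.flipD_of_not e d (h e (by simp))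

theorem flips_surj (F : List P.E) : ∀ d : P.D,
    ∃ d', F.foldr P.flipD d' = d ∧ P.supp d' = P.supp d := by
  induction F with
  | nil => exact fun d => ⟨d, rfl, rfl⟩
  | cons e F ih =>
    intro d
    obtain ⟨d', h1, h2⟩ := ih (P.flipD e d)
    exact ⟨d', by rw [List.foldr_cons, h1, P.flipD_flipD], h2.trans (P.supp_flipD e d)⟩

/-- The key lemma: the quantifier clause may be read over any small good superset. -/
theorem key {x : ℕ} {φ : Fm} {v : ℕ → P.D} {a : P.Ω} {S : Set P.E} (hg : P.Good S a)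
    (hS : P.Sf (.all x φ) v ⊆ S) (hc : S.encard + 16 < P.m) :
    P.Sat (.all x φ) v a ↔
      ∀ d a', P.Good (S ∪ P.supp d) a' → P.Eqv S a a' → P.Sat φ (update v x d) a' := by
  rw [sat_all]
  constructor
  · intro H d a' h1 h2
    exact H d a' (P.good_mono (Set.union_subset_union_left _ hS) h1) (P.eqv_mono hS h2)
  · intro H d a' h1 h2
    have hc' : (S ∪ P.supp d).encard < P.m := lt_of_le_of_lt (encard_union_supp S d) hc
    obtain ⟨b, hb1, hb2⟩ := ext_supp d hg hc'
    obtain ⟨F, hF, h5⟩ := fib_many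
      (lt_of_le_of_lt (Set.encard_le_encard (Set.union_subset_union_left _ hS)) hc') h1
      (P.good_mono (Set.union_subset_union_left _ hS) hb1)
      (P.eqv_trans (P.eqv_symm h2) (P.eqv_mono hS hb2))
    obtain ⟨d', hd1, hd2⟩ := flips_surj F d
    refine (sat_loc' (Sf_update x φ v d) h5).2 ?_
    have h6 := H d' b (by rwa [hd2]) hb2
    rw [← sat_flips φ F] at h6
    refine (sat_congr φ _ fun y hy => ?_).1 h6
    by_cases hyx : y = x
    · subst hyx; simp [hd1]
    · rw [update_of_ne hyx, update_of_ne hyx]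
      exact flips_fix F _ fun e he h' => hF e he ⟨y, ⟨Ne.symm hyx, hy⟩, h'⟩

end PW

end Pool.Agent.MP_8ec908_lc.H65
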