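import Pool.Agent.MP_8ec908_lc.H65.Core
import Pool.Agent.MP_8ec908_lc.H78.M6

/-! Short proofs of bounded rank. -/

namespace Pool.Agent.MP_8ec908_lc.H65

open Pool.Agent.MP_8ec908_lc.Defs Pool.Agent.MP_8ec908_lc.H78 Function
open Pool.Agent.MP_8ec908_lc.H18 (Prov conj conjL Der Cl bnum)
open Pool.Agent.MP_8ec908_lc.H9 (PD)

/-- Polynomially bounded functions. -/
def Bd (f : ℕ → ℕ) : Prop := ∃ P : Polynomial ℕ, ∀ n, f n ≤ P.eval n

namespace Bd

variable {f g : ℕ → ℕ}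

theorem const (c : ℕ) : Bd fun _ => c := ⟨Polynomial.C c, by simp⟩
theorem id : Bd fun n => n := ⟨Polynomial.X, by simp⟩
theorem mono (hf : Bd f) (h : ∀ n, g n ≤ f n) : Bd g := hf.imp fun _ hP n => (h n).trans (hP n)
theorem eval (P : Polynomial ℕ) : Bd fun n => P.eval n := ⟨P, fun _ => le_rfl⟩
theorem add (hf : Bd f) (hg : Bd g) : Bd fun n => f n + g n := by
  obtain ⟨P, hP⟩ := hf
  obtain ⟨R, hR⟩ := hg
  exact ⟨P + R, fun n => by rw [Polynomial.eval_add]; exact Nat.add_le_add (hP n) (hR n)⟩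
theorem mul (hf : Bd f) (hg : Bd g) : Bd fun n => f n * g n := by
  obtain ⟨P, hP⟩ := hf
  obtain ⟨R, hR⟩ := hg
  exact ⟨P * R, fun n => by rw [Polynomial.eval_mul]; exact Nat.mul_le_mul (hP n) (hR n)⟩
theorem lin (a b : ℕ) (h : ∀ n, f n ≤ a * n + b) : Bd f := (((const a).mul id).add (const b)).mono h

end Bd

/-- Families of formulas of polynomial size and bounded rank. -/
def Sm (φ : ℕ → Fm) : Prop := (Bd fun n => sz (φ n)) ∧ ∃ k, ∀ n, (φ n).rank ≤ k

/-- Families of formulas with short proofs of bounded rank. -/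
def PF (A : List Fm) (φ : ℕ → Fm) : Prop :=
  ∃ k, ∃ f : ℕ → ℕ, Bd f ∧ ∀ n, Der A k (f n) (f n) (φ n)

variable {A : List Fm} {a b c : ℕ → Fm}

theorem Sm.const (a : Fm) : Sm fun _ => a := ⟨.const _, _, fun _ => le_rfl⟩

theorem Sm.imp (ha : Sm a) (hb : Sm b) : Sm fun n => .imp (a n) (b n) := by
  obtain ⟨h1, k, hk⟩ := ha
  obtain ⟨h2, j, hj⟩ := hb
  exact ⟨((h1.add h2).add (.const 1)).mono fun n => (sz_imp _ _).le, max k j,
    fun n => max_le_max (hk n) (hj n)⟩

theorem Sm.all {x : ℕ → ℕ} (hx : Bd x) (ha : Sm a) : Sm fun n => .all (x n) (a n) := by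
  obtain ⟨h1, k, hk⟩ := ha
  exact ⟨((h1.add hx).add (.const 2)).mono fun n => (sz_all _ _).le, k + 1,
    fun n => Nat.succ_le_succ (hk n)⟩

theorem Sm.subst (x : ℕ → ℕ) {u : ℕ → Tm} (hu : Bd fun n => tz (u n)) (ha : Sm a) :
    Sm fun n => (a n).subst (x n) (u n) := by
  obtain ⟨h1, k, hk⟩ := ha
  exact ⟨(h1.mul hu).mono fun n => H18.fm_len_subst _ _ _, k,
    fun n => (rank_subst _ _ _).trans_le (hk n)⟩

theorem Sm.of_all {x : ℕ → ℕ} (h : Sm fun n => .all (x n) (a n)) : Sm a := by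
  obtain ⟨h1, k, hk⟩ := h
  exact ⟨h1.mono fun n => by rw [sz_all]; omega, k, fun n => (Nat.le_succ _).trans (hk n)⟩

theorem Sm.of_imp (h : Sm fun n => .imp (a n) (b n)) : Sm a ∧ Sm b := by
  obtain ⟨h1, k, hk⟩ := h
  exact ⟨⟨h1.mono fun n => by rw [sz_imp]; omega, k, fun n => (le_max_left _ _).trans (hk n)⟩,
    h1.mono fun n => by rw [sz_imp]; omega, k, fun n => (le_max_right _ _).trans (hk n)⟩

namespace PF

theorem mk' {k : ℕ} {f g : ℕ → ℕ} (hf : Bd f) (hg : Bd g) (h : ∀ n, Der A k (f n) (g n) (a n)) :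
    PF A a :=
  ⟨k, _, hf.add hg, fun n => ((h n).monoB le_rfl (Nat.le_add_right _ _)).mono (Nat.le_add_left _ _)⟩

theorem sm (h : PF A a) : Sm a := by
  obtain ⟨k, f, hf, h⟩ := h
  exact ⟨hf.mono fun n => (h n).bound.1, k, fun n => (h n).bound.2⟩

theorem const {a : Fm} (h : Prov A a) : PF A fun _ => a := by
  obtain ⟨k, B, N, h⟩ := Der.of_prov h
  exact mk' (.const B) (.const N) fun _ => h

theorem logic (h : ∀ n, LogAx (a n)) (hs : Sm a) : PF A a := by
  obtain ⟨h1, k, hk⟩ := hs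
  exact mk' h1 (.const 1) fun n => Der.logic (h n) le_rfl (hk n)

theorem mp (h1 : PF A fun n => .imp (a n) (b n)) (h2 : PF A a) : PF A b := by
  obtain ⟨k, f, hf, h1⟩ := h1
  obtain ⟨j, g, hg, h2⟩ := h2
  exact mk' (hf.add hg) ((hf.add hg).add (.const 1)) fun n =>
    ((h1 n).monoB (le_max_left k j) (Nat.le_add_right _ _)).mp
      ((h2 n).monoB (le_max_right k j) (Nat.le_add_left _ _))

theorem gen {x : ℕ → ℕ} (hx : Bd x) (h : PF A a) : PF A fun n => .all (x n) (a n) := by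
  obtain ⟨h1, j, hj⟩ := h.sm.all hx
  obtain ⟨k, f, hf, h⟩ := h
  refine mk' (k := max k j) (hf.add h1) (hf.add (.const 1)) fun n => ?_
  obtain ⟨p, hp, h2, h3, h4⟩ := h n
  exact ⟨_, .gen p (x n) _ hp h2, by simp, by simpa using h3, List.forall_mem_cons.2
    ⟨⟨Nat.le_add_left _ _, (hj n).trans (le_max_right _ _)⟩, fun b hb =>
      ⟨(h4 b hb).1.trans (Nat.le_add_right _ _), (h4 b hb).2.trans (le_max_left _ _)⟩⟩⟩

theorem inst {x : ℕ → ℕ} (u : ℕ → Tm) (h : PF A fun n => .all (x n) (a n))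
    (hu : Bd fun n => tz (u n)) (hf : ∀ n, (a n).FreeFor (x n) (u n)) :
    PF A fun n => (a n).subst (x n) (u n) :=
  (logic (fun n => .inst _ _ _ (hf n)) (h.sm.imp (h.sm.of_all.subst x hu))).mp h

theorem comp (h1 : PF A fun n => .imp (a n) (b n)) (h2 : PF A fun n => .imp (b n) (c n)) :
    PF A fun n => .imp (a n) (c n) := by
  obtain ⟨ha, hb⟩ := h1.sm.of_imp
  have hc := h2.sm.of_imp.2
  exact ((logic (fun n => .s (a n) (b n) (c n))
    ((ha.imp (hb.imp hc)).imp ((ha.imp hb).imp (ha.imp hc)))).mp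
    ((logic (fun n => .k _ (a n)) ((hb.imp hc).imp (ha.imp (hb.imp hc)))).mp h2)).mp h1

theorem weak {A' : List Fm} (h : PF A a) (hA : ∀ b ∈ A, b ∈ A') : PF A' a := by
  obtain ⟨k, f, hf, h⟩ := h
  exact ⟨k, f, hf, fun n => (h n).imp fun p hp => ⟨H18.isProof_mono hp.1 hA, hp.2⟩⟩

theorem unif {φ : Fm → ℕ → Fm} (L : List Fm) (h : ∀ b ∈ L, PF A (φ b)) :
    ∃ k, ∃ f : ℕ → ℕ, Bd f ∧ ∀ b ∈ L, ∀ n, Der A k (f n) (f n) (φ b n) := by
  induction L with
  | nil => exact ⟨0, _, .const 0, by simp⟩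
  | cons b L ih =>
    obtain ⟨k, f, hf, h1⟩ := ih fun b hb => h b (by simp [hb])
    obtain ⟨j, g, hg, h2⟩ := h b (by simp)
    exact ⟨max k j, _, hf.add hg, List.forall_mem_cons.2
      ⟨fun n => ((h2 n).monoB (le_max_right _ _) (Nat.le_add_left _ _)).mono (Nat.le_add_left _ _),
        fun b hb n => ((h1 b hb n).monoB (le_max_left _ _) (Nat.le_add_right _ _)).mono
          (Nat.le_add_right _ _)⟩⟩

end PF

/-- The deduction theorem with bounds. -/
theorem ded {A' p : List Fm} {G : Fm} {k B N : ℕ} (hp : IsProof A' p)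
    (hx : ∀ x a, Fm.all x a ∈ p → ¬ G.Free x) (hax : ∀ b ∈ A', Der A k B N (.imp G b))
    (hB : ∀ b ∈ p, 3 * sz G + 2 * sz b + 10 ≤ B ∧ b.rank ≤ k) (hG : G.rank < k) :
    ∃ q, IsProof A q ∧ (∀ b ∈ p, .imp G b ∈ q) ∧ q.length ≤ (N + 3) * p.length ∧
      ∀ c ∈ q, sz c ≤ B ∧ c.rank ≤ k := by
  induction hp with
  | nil => exact ⟨[], .nil, by simp, by simp, by simp⟩
  | logic p a _ ha ih =>
    obtain ⟨q, h1, h2, h3, h4⟩ := ih (fun x a h => hx x a (by simp [h]))
      fun b hb => hB b (by simp [hb])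
    have := hB a (by simp)
    refine ⟨_, .mp _ a (.imp G a) (.logic _ _ (.logic _ _ h1 ha) (.k a G)) (by simp) (by simp),
      List.forall_mem_cons.2 ⟨by simp, fun b hb => by simp [h2 b hb]⟩,
      by simp only [List.length_cons]; nlinarith, ?_⟩
    simp only [List.forall_mem_cons, sz_imp, Fm.rank]
    exact ⟨by omega, by omega, by omega, h4⟩
  | ax p a _ ha ih =>
    obtain ⟨q, h1, h2, h3, h4⟩ := ih (fun x a h => hx x a (by simp [h]))
      fun b hb => hB b (by simp [hb])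
    obtain ⟨r, r1, r2, r3, r4⟩ := hax a ha
    exact ⟨_, isProof_append r1 h1, List.forall_mem_cons.2 ⟨by simp [r2], fun b hb => by
      simp [h2 b hb]⟩, by simp only [List.length_cons, List.length_append]; nlinarith,
      List.forall_mem_append.2 ⟨r4, h4⟩⟩
  | mp p a b _ ha hb ih =>
    obtain ⟨q, h1, h2, h3, h4⟩ := ih (fun x a h => hx x a (by simp [h]))
      fun b hb => hB b (by simp [hb])
    have := hB _ (List.mem_cons_of_mem _ hb)
    refine ⟨_, .mp _ (.imp G a) (.imp G b) (.mp _ (.imp G (.imp a b)) _ (.logic _ _ h1 (.s G a b))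
      (by simp [h2 _ hb]) List.mem_cons_self) (by simp [h2 _ ha]) List.mem_cons_self,
      List.forall_mem_cons.2 ⟨by simp, fun b hb => by simp [h2 b hb]⟩,
      by simp only [List.length_cons]; nlinarith, ?_⟩
    simp only [List.forall_mem_cons, sz_imp, Fm.rank] at this ⊢
    exact ⟨by omega, by omega, by omega, h4⟩
  | gen p x a _ ha ih =>
    obtain ⟨q, h1, h2, h3, h4⟩ := ih (fun x a h => hx x a (by simp [h]))
      fun b hb => hB b (by simp [hb])
    have := hB _ List.mem_cons_self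
    refine ⟨_, .mp _ (.all x (.imp G a)) (.imp G (.all x a)) (.logic _ _ (.gen _ x _ h1 (h2 _ ha))
      (.dist x G a (hx x a (by simp)))) (by simp) List.mem_cons_self,
      List.forall_mem_cons.2 ⟨by simp, fun b hb => by simp [h2 b hb]⟩,
      by simp only [List.length_cons]; nlinarith, ?_⟩
    simp only [List.forall_mem_cons, sz_imp, sz_all, Fm.rank] at this ⊢
    exact ⟨by omega, by omega, by omega, h4⟩

theorem GG_ren {H K K' : ℕ} {Z : Fm} (hZ : Z.Closed) (hK : k0 ≤ K) (hK' : k0 ≤ K') :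
    (GG H Z K).subst K (.var K') = GG H Z K' ∧ (GG H Z K).FreeFor K (.var K') := by
  have h : ∀ b ∈ Ax0, sz b ≤ k0 := fun b hb => sz_le_k0 (List.mem_append_right _ hb)
  unfold GG
  generalize Ax0 = L at h
  induction L with
  | nil => exact ⟨H18.subst_not_free _ _ _ (hZ K), H19.freeFor_of_not_free _ _ _ (hZ K)⟩
  | cons b L ih =>
    obtain ⟨h1, h2⟩ := ih fun b hb => h b (by simp [hb])
    have h3 := h b (by simp)
    exact ⟨(H9.subst_conj _ _ _ _).trans (congrArg₂ conj (trF_ren (by omega) _) h1),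
      ⟨trF_freeFor_var (by omega) _, h2, trivial⟩, trivial⟩

theorem pf_ded {H : ℕ} {Z : Fm} (hZ : Z.Closed) (hQ : ∀ b ∈ Q, b ∈ A) {t : ℕ → Tm}
    (h : PF A0 fun n => XP (t n)) :
    PF A fun n => .all k0 (.imp (GG H Z k0) (trF H k0 (XP (t n)))) := by
  obtain ⟨k, f, hf, h⟩ := h
  have hK : Bd fun n => f n + k0 := hf.add (.const _)
  have hax : ∀ b ∈ A0, PF A fun n => .imp (GG H Z (f n + k0)) (trF H (f n + k0) b) := by
    intro b hb
    have h1 : Prov A (.imp (GG H Z k0) (trF H k0 b)) := by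
      rcases List.mem_append.1 hb with hb | hb
      · rw [trF_ar (H47.arF_Q b hb)]
        exact (PD.intro (.thm (H9.pAx (hQ b hb)))).prov
      · exact (PD.intro ((pd_conjL PD.h0).1 _ (List.mem_map_of_mem hb))).prov
    have h2 := (PF.const (h1.gen k0)).inst (fun n => .var (f n + k0))
      ((hK.add (.const 2)).mono fun n => (tz_var _).le) fun n =>
        ⟨(GG_ren hZ le_rfl (by omega)).2, trF_freeFor_var ((sz_le_k0 hb).trans (by omega)) _⟩
    simpa only [H9.subst_imp, (GG_ren hZ le_rfl (Nat.le_add_left _ _)).1, trF_ren (sz_le_k0 hb)]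
      using h2
  obtain ⟨⟨hG, i, hi⟩, -⟩ := (hax axN0 (by simp [A0, Ax0])).sm.of_imp
  obtain ⟨j, g, hg, hax⟩ := PF.unif A0 hax
  have h1 : PF A fun n => .imp (GG H Z (f n + k0)) (trF H (f n + k0) (XP (t n))) := by
    refine PF.mk' (k := max (max k j) (i + 1)) ((hg.add (((Bd.const 3).mul hG).add
      ((Bd.const 2).mul ((((Bd.const (8 * H)).add hK).add (.const 20)).mul hf)))).add (.const 10))
      ((hg.add (.const 3)).mul hf) fun n => ?_
    obtain ⟨p, hp, h2, h3, h4⟩ := h n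
    obtain ⟨q, q1, q2, q3, q4⟩ := ded (A := A) (G := GG H Z (f n + k0)) (k := max (max k j) (i + 1))
      (N := g n) (B := g n + (3 * sz (GG H Z (f n + k0)) + 2 * ((8 * H + (f n + k0) + 20) * f n)) + 10)
      (isProof_trF (H := H) (K := f n + k0) hp fun b hb => (h4 b hb).1.trans (Nat.le_add_right _ _))
      (fun x a hx h => by
        obtain ⟨b, hb, h5⟩ := List.mem_map.1 hx
        have h6 : sz b ≤ f n := (h4 b hb).1
        have h7 := free_GG hZ h
        cases b <;> cases h5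
        rw [sz_all] at h6
        omega)
      (fun _ hb => by
        obtain ⟨b, hb', rfl⟩ := List.mem_map.1 hb
        exact (hax b hb' n).monoB (by omega) (by omega))
      (fun _ hb => by
        obtain ⟨b, hb', rfl⟩ := List.mem_map.1 hb
        have h5 := (sz_trF (H := H) (K := f n + k0) b).trans (Nat.mul_le_mul_left _ (h4 b hb').1)
        have h6 := (h4 b hb').2
        exact ⟨by omega, by rw [rank_trF]; omega⟩)
      (lt_of_le_of_lt (hi n) (by omega))
    exact ⟨q, q1, q2 _ (List.mem_map_of_mem h2),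
      q3.trans (Nat.mul_le_mul_left _ (by simpa using h3)), q4⟩
  have h2 := (h1.gen hK).inst (fun _ => .var k0) (.const _) fun n =>
    ⟨(GG_ren hZ (by omega) le_rfl).2, trivial, trivial⟩
  refine PF.gen (.const _) ?_
  simpa only [H9.subst_imp, (GG_ren hZ (Nat.le_add_left _ _) le_rfl).1,
    fun n => trF_ren (H := H) ((h n).bound.1.trans (Nat.le_add_right (f n) k0)) k0] using h2

theorem pf_double {t : ℕ → Tm} (c : ℕ) (ht : ∀ n, Cl (t n))
    (h : PF Q fun n => .eq (t n) (num (c * n))) :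
    PF Q fun n => .eq (mul (num 2) (t n)) (num (2 * c * n)) := by
  obtain ⟨k, f, hf, h⟩ := h
  obtain ⟨j, B, d, h1⟩ := H18.der_double
  refine PF.mk' (k := max k j) (((Bd.const 4).mul hf).add (.lin (200 * c) (B + 100) fun n => le_rfl))
    (hf.add (.lin (d * c) (d + 7) fun n => le_rfl)) fun n => ?_
  have h2 := (h n).bound.1
  rw [H18.eq_len, H18.num_len] at h2
  have h3 := Der.trans (H18.cl_mul (H18.cl_num 2) (ht n))
    (Der.cmul (B := 4 * f n + (200 * c * n + (B + 100))) (ht n)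
      ((h n).monoB (le_max_left k j) (by omega)) (by rw [H18.num_len]; omega))
    ((h1 (c * n) _ le_rfl).monoB (le_max_right k j) (by rw [mul_assoc]; omega))
    (by simp only [H18.mul_len, H18.num_len, mul_assoc]; omega)
  rw [mul_assoc 2]
  exact h3.mono (by nlinarith)

theorem pf_XP {ν : ℕ → Tm} (hν : ∀ n, Cl (ν n)) (h : PF Q fun n => .eq (ν n) (num n)) :
    PF A0 fun n => XP (ν n) := by
  have c2 : ∀ {t : ℕ → Tm}, (∀ n, Cl (t n)) → ∀ n, Cl (mul (num 2) (t n)) :=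
    fun h n => H18.cl_mul (H18.cl_num 2) (h n)
  have h1 : PF Q fun n => .eq (sc (ν n)) (num (16 * n)) :=
    pf_double 8 (c2 (c2 (c2 hν))) (pf_double 4 (c2 (c2 hν)) (pf_double 2 (c2 hν)
      (pf_double 1 hν (by simpa only [one_mul] using h))))
  obtain ⟨k, P, h6⟩ := m6
  have h2 : PF A0 fun n => neg (Pe (num (16 * n))) := by
    refine ⟨k, _, .eval (P.comp (16 * Polynomial.X)), fun n => ?_⟩
    obtain ⟨p, hp, h2, h3, h4⟩ := h6 (16 * n)
    have h5 : len p ≤ (P.comp (16 * Polynomial.X)).eval n := by simpa using h3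
    exact ⟨p, hp, h2, (H19.length_le_len p).trans h5,
      fun b hb => ⟨(sz_le_len hb).trans h5, h4 b hb⟩⟩
  have h3 : ∀ {t : ℕ → Tm}, (∀ n, tz (t n) ≤ sz (.eq (sc (ν n)) (num (16 * n)))) →
      Sm fun n => Pe (t n) := fun h =>
    ⟨(h1.sm.1.add (.const 5)).mono fun n =>
      (sz_Pe _).trans_le (Nat.add_le_add_right (h n) _), 0, fun _ => le_rfl⟩
  refine PF.comp ((PF.logic (fun n => ?_) (h1.sm.imp ((h3 fun n => by rw [sz_eq]; omega).imp
    (h3 fun n => by rw [sz_eq]; omega)))).mp (h1.weak fun b hb => List.mem_append_left _ hb)) h2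
  simpa only [H18.pe_subst, H18.var_subst, if_true] using
    LogAx.leib 9 (sc (ν n)) (num (16 * n)) (Pe (.var 9)) trivial

theorem isProof_tail {p : List Fm} {φ : Fm} (hp : IsProof A p) (h : φ ∈ p) :
    ∃ q, IsProof A (φ :: q) ∧ (φ :: q).length ≤ p.length ∧ ∀ b ∈ φ :: q, b ∈ p := by
  induction p with
  | nil => cases h
  | cons a p ih =>
    rcases List.mem_cons.1 h with rfl | h
    · exact ⟨p, hp, le_rfl, fun _ h => h⟩
    · obtain ⟨q, h1, h2, h3⟩ := ih (by cases hp <;> assumption) h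
      exact ⟨q, h1, h2.trans (by simp), fun b hb => List.mem_cons_of_mem _ (h3 b hb)⟩

theorem PF.out (h : PF A a) (hA : ∀ b ∈ A, ArF b) (ha : ∀ n, ArF (a n)) :
    ∃ k : ℕ, ∃ P : Polynomial ℕ, ∀ n, ∃ p, IsProof A p ∧ p.head? = some (a n) ∧
      len p ≤ P.eval n ∧ ∀ b ∈ p, ArF b ∧ Cx true k b ∧ b.rank ≤ k := by
  obtain ⟨k, f, hf, h⟩ := h
  obtain ⟨P, hP⟩ := ((hf.mul hf).add (.const 20)).mul (hf.mul hf)
  refine ⟨k + 1, P, fun n => ?_⟩
  obtain ⟨p, hp, h1, h2, h3⟩ := h n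
  obtain ⟨q, h4, h5, h6⟩ := isProof_tail hp h1
  obtain ⟨g, g1, g2, g3, g4⟩ := arith_proof h4 hA
  have h7 : len (a n :: q) ≤ f n * f n := (Der.len_le _ fun b hb => (h3 b (h6 b hb)).1).trans
    (Nat.mul_le_mul_right _ (h5.trans h2))
  refine ⟨_, g1, by simp [g3 _ (ha n)], g4.trans ((Nat.mul_le_mul (by omega) h7).trans (hP n)),
    fun _ hb => ?_⟩
  obtain ⟨b, hb', rfl⟩ := List.mem_map.1 hb
  have h8 := (g2 b).2.trans_le (h3 b (h6 b hb')).2
  exact ⟨(g2 b).1, H18.cx_of_rank _ _ h8 _, by omega⟩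

theorem ar_subst {φ : Fm} {u : Tm} (h : ArF φ) (x : ℕ) (hu : ArT u) : ArF (φ.subst x u) := by
  have := ar_trF (H := 0) (K := x + 1) (φ.subst x u)
  rwa [trF_subst (by omega), trF_ar h, trT_ar hu] at this

theorem ar_bnum (n : ℕ) : ArT (bnum n) := by
  induction n using Nat.strong_induction_on with
  | _ n ih =>
    rcases Nat.eq_zero_or_pos n with rfl | h
    · rw [H18.bnum_zero]; exact .zero
    · rw [H18.bnum_pos h]
      have := ArT.mul _ _ (H18.arT_num 2) (ih (n / 2) (by omega))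
      split_ifs
      exacts [this, .succ _ this]

theorem finish {H : ℕ} {Z C : Fm} {ν : ℕ → Tm} (hZ : Z.Closed) (hQ : ∀ b ∈ Q, b ∈ A)
    (hν : ∀ n, Cl (ν n)) (hν' : ∀ n, ArT (ν n)) (h : PF Q fun n => .eq (ν n) (num n))
    (hT : Prov A (TW H Z C)) : PF A fun n => C.subst 1 (ν n) := by
  have hk := k0_ge
  have h1 := (PF.const hT).inst ν (h.sm.1.mono fun n => by rw [sz_eq]; omega)
    fun n => H18.freeFor_closed _ _ (hν n)
  refine PF.mp (a := fun n => .all k0 (.imp (GG H Z k0) (trF H k0 (XP (ν n))))) ?_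
    (pf_ded hZ hQ (pf_XP hν h))
  convert h1 using 2 with n
  rw [H9.subst_imp, H9.subst_all, if_neg (by omega), H9.subst_imp,
    H18.subst_not_free (GG H Z k0) _ _ fun h => by have := free_GG hZ h; omega]
  conv_rhs => rw [← trT_ar (H := H) (K := k0) (hν' n), ← trF_subst (by omega), XP_subst,
    trT_ar (hν' n)]
  rfl

end Pool.Agent.MP_8ec908_lc.H65
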