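import Pool.Agent.MP_8ec908_lc.H65.PM

/-! Soundness of narrow proofs. -/

namespace Pool.Agent.MP_8ec908_lc.H65

open Pool.Agent.MP_8ec908_lc.Defs Pool.Agent.MP_8ec908_lc.H47 Function

/-- The width of a formula. -/
noncomputable def wd (φ : Fm) : ℕ∞ := {x | φ.Free x}.encard + φ.rank

namespace PW

variable {P : PW}

theorem Sf_card (φ : Fm) (v : ℕ → P.D) : (P.Sf φ v).encard ≤ 16 * {x | φ.Free x}.encard := by
  have key : ∀ s : Set ℕ, s.Finite → {e | ∃ x, x ∈ s ∧ e ∈ P.supp (v x)}.encard ≤ 16 * s.encard := by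
    intro s hs
    induction s, hs using Set.Finite.induction_on with
    | empty => simp
    | @insert x s hx _ ih =>
      have : {e | ∃ y, y ∈ insert x s ∧ e ∈ P.supp (v y)} =
          {e | ∃ y, y ∈ s ∧ e ∈ P.supp (v y)} ∪ P.supp (v x) := by
        ext e
        simp [or_comm]
      rw [this, Set.encard_insert_of_notMem hx, mul_add, mul_one]
      exact (encard_union_supp _ _).trans (add_le_add ih le_rfl)
  exact key _ (Set.encard_lt_top_iff.1
    (lt_of_le_of_lt (le_self_add.trans (fm_card φ)) (ENat.natCast_lt_top _)))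

theorem Sf_rank_le (φ : Fm) (v : ℕ → P.D) : (P.Sf φ v).encard + 16 * φ.rank ≤ 16 * wd φ := by
  rw [wd, mul_add]
  exact add_le_add (Sf_card φ v) le_rfl

theorem rank_mono {S : Set P.E} {r r' : ℕ} (h : S.encard + 16 * (r' : ℕ∞) < P.m) (hr : r ≤ r') :
    S.encard + 16 * (r : ℕ∞) < P.m :=
  lt_of_le_of_lt (add_le_add le_rfl (mul_le_mul_right (by exact_mod_cast hr) _)) h

theorem rank_one {S : Set P.E} {r : ℕ} (h : S.encard + 16 * (r : ℕ∞) < P.m) (hr : 1 ≤ r) :
    S.encard + 16 < P.m := by simpa using rank_mono h hr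

theorem rank_step {S : Set P.E} {r : ℕ} (h : S.encard + 16 * ((r + 1 : ℕ) : ℕ∞) < P.m) (d : P.D) :
    (S ∪ P.supp d).encard + 16 * (r : ℕ∞) < P.m := by
  refine lt_of_le_of_lt ?_ h
  push_cast
  calc _ ≤ S.encard + 16 + 16 * (r : ℕ∞) := add_le_add (encard_union_supp S d) le_rfl
    _ = _ := by ring

/-- Substitution lemma. -/
theorem sat_subst (φ : Fm) (x : ℕ) (u : Tm) : ∀ {v : ℕ → P.D} {a : P.Ω} {S : Set P.E},
    φ.FreeFor x u → P.Good S a → P.Sf (.all x φ) v ⊆ S → P.St u v ⊆ S →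
    S.encard + 16 * φ.rank < P.m →
    (P.Sat (φ.subst x u) v a ↔ P.Sat φ (update v x (P.ev v a u)) a) := by
  induction φ with
  | bot => intros; rfl
  | eq s t => intros; simp only [Fm.subst, sat_eq, ev_subst]
  | rel k n ts => intros; rfl
  | imp φ ψ ih1 ih2 =>
    intro v a S hf hg hS hu hc
    simp only [Fm.subst, sat_imp]
    have h1 := rank_mono (r := φ.rank) hc (le_max_left _ _)
    have h2 := rank_mono (r := ψ.rank) hc (le_max_right _ _)
    rw [ih1 hf.1 hg (subset_trans ?_ hS) hu h1, ih2 hf.2 hg (subset_trans ?_ hS) hu h2]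
    · rintro e ⟨y, hy, he⟩; exact ⟨y, ⟨hy.1, Or.inr hy.2⟩, he⟩
    · rintro e ⟨y, hy, he⟩; exact ⟨y, ⟨hy.1, Or.inl hy.2⟩, he⟩
  | all y φ ih =>
    intro v a S hf hg hS hu hc
    by_cases hx : (Fm.all y φ).Free x
    swap
    · rw [subst_of_not_free _ _ _ hx]
      refine sat_congr _ _ fun z hz => ?_
      rw [update_of_ne]
      rintro rfl
      exact hx hz
    rcases hf with hf | hf
    · exact (hf hx).elim
    have hyx : y ≠ x := hx.1
    have hc1 := rank_one hc (Nat.le_add_left _ _)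
    simp only [Fm.subst, if_neg hyx]
    have hS1 : P.Sf (.all y (φ.subst x u)) v ⊆ S := by
      rintro e ⟨z, hz, he⟩
      rcases free_subst φ x u z hz.2 with h | h
      · exact hS ⟨z, ⟨h.2.symm, hz.1, h.1⟩, he⟩
      · exact hu ⟨z, h, he⟩
    have hS2 : P.Sf (.all y φ) (update v x (P.ev v a u)) ⊆ S :=
      (Sf_update x _ v _).trans (Set.union_subset hS ((supp_ev u v a).trans hu))
    rw [key hg hS1 hc1, key hg hS2 hc1]
    refine forall_congr' fun d => forall_congr' fun a' => forall_congr' fun hg' =>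
      forall_congr' fun he => ?_
    have hv : ∀ z, u.Occ z → update v y d z = v z := fun z hz =>
      update_of_ne (by rintro rfl; exact hf.1 hz) _ _
    rw [ih (S := S ∪ P.supp d) hf.2 hg' ?_ ?_ ?_]
    · rw [ev_congr u a' hv, ← ev_loc u v (P.eqv_mono hu he), update_comm hyx]
    · rintro e ⟨z, hz, he⟩
      by_cases hzy : z = y
      · subst hzy; right; simpa using he
      · rw [update_of_ne hzy] at he
        exact Or.inl (hS ⟨z, ⟨hz.1, Ne.symm hzy, hz.2⟩, he⟩)
    · rintro e ⟨z, hz, he⟩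
      rw [hv z hz] at he
      exact Or.inl (hu ⟨z, hz, he⟩)
    · exact rank_step hc d

theorem sat_of_loc {φ : Fm} {v : ℕ → P.D} (h : P.Loc φ v) {S : Set P.E} {a : P.Ω}
    (hS : P.Sf φ v ⊆ S) (hg : P.Good S a) : P.Sat φ v a := h a (P.good_mono hS hg)

/-- A universal formula whose instances are valid is satisfied in every state. -/
theorem sat_all_of_loc {x : ℕ} {φ : Fm} {v : ℕ → P.D} (h : ∀ d, P.Loc φ (update v x d))
    (a : P.Ω) : P.Sat (.all x φ) v a :=
  fun d _ hg _ => sat_of_loc (h d) (Sf_update x φ v d) hg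

theorem loc_all {x : ℕ} {φ : Fm} {v : ℕ → P.D} (h : ∀ d, P.Loc φ (update v x d)) :
    P.Loc (.all x φ) v := fun a _ => sat_all_of_loc h a

theorem valid_all (x : ℕ) {φ : Fm} (h : P.Valid φ) : P.Valid (.all x φ) :=
  fun _ => loc_all fun _ => h _

theorem loc_of_sat {φ : Fm} {v : ℕ → P.D} (h : ∀ a, P.Sat φ v a) : P.Loc φ v := fun a _ => h a

/-- Existential introduction; one extension step is spent. -/
theorem sat_ex {x : ℕ} {φ : Fm} {v : ℕ → P.D} {a : P.Ω} (d : P.D)
    (hg : P.Good (P.Sf (ex x φ) v) a) (hc : (P.Sf (ex x φ) v).encard + 16 < P.m)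
    (h : P.Loc φ (update v x d)) : P.Sat (ex x φ) v a := by
  intro H
  have hS : P.Sf (ex x φ) v = P.Sf (.all x (neg φ)) v := Sf_neg _ _
  rw [hS] at hg hc
  obtain ⟨a', h1, h2⟩ := ext_supp d hg (lt_of_le_of_lt (encard_union_supp _ d) hc)
  refine H d a' h1 h2 (sat_of_loc h ?_ h1)
  rw [← Sf_neg]
  exact Sf_update x _ v d

theorem valid_mp {φ ψ : Fm} (h1 : P.Valid φ) (h2 : P.Valid (.imp φ ψ))
    (hc : 16 * wd (.imp φ ψ) < P.m) : P.Valid ψ := by
  intro v a hg
  obtain ⟨a', h3, h4⟩ := ext_sup (Sf_imp_right φ ψ v) hg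
    (lt_of_le_of_lt (le_self_add.trans (Sf_rank_le _ v)) hc)
  exact (sat_loc ψ v h4).2 (h2 v a' h3 (sat_of_loc (h1 v) (Sf_imp_left φ ψ v) h3))

theorem valid_logAx {φ : Fm} (h : LogAx φ) (hc : 16 * wd φ < P.m) : P.Valid φ := by
  intro v a hg
  have hc' := lt_of_le_of_lt (Sf_rank_le φ v) hc
  cases h with
  | k φ ψ => exact fun h _ => h
  | s φ ψ χ => exact fun h1 h2 h3 => h1 h3 (h2 h3)
  | dn φ => exact fun h => Classical.byContradiction fun h' => h h'
  | inst x u φ hf =>
    intro H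
    by_cases hx : φ.Free x
    · have hu : P.St u v ⊆ P.Sf (.imp (.all x φ) (φ.subst x u)) v := by
        rintro e ⟨y, hy, he⟩
        exact ⟨y, Or.inr (free_subst_of_free φ x u y hf hx hy), he⟩
      rw [sat_subst φ x u hf hg (Sf_imp_left _ _ v) hu ?_]
      · exact H _ a (P.good_mono (Set.union_subset (Sf_imp_left _ _ v)
          ((supp_ev u v a).trans hu)) hg) (P.eqv_refl _ _)
      · exact rank_mono hc' ((Nat.le_succ _).trans (le_max_left _ _))
    · rw [subst_of_not_free _ _ _ hx]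
      have := H P.d0 a (P.good_mono (by rw [P.supp_d0, Set.union_empty]; exact Sf_imp_left _ _ v) hg)
        (P.eqv_refl _ _)
      refine (sat_congr φ a fun y hy => ?_).1 this
      exact update_of_ne (by rintro rfl; exact hx hy) _ _
  | dist x φ ψ hx =>
    intro H1 H2
    have hc1 := rank_one hc' ((Nat.le_add_left _ _).trans (le_max_left _ _))
    rw [key hg ((Sf_imp_right _ _ v).trans (Sf_imp_right _ _ v)) hc1]
    rw [key hg (Sf_imp_left _ _ v) hc1] at H1
    intro d a' h1 h2
    refine H1 d a' h1 h2 ?_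
    have h3 := (sat_loc' ((Sf_imp_left _ _ v).trans (Sf_imp_right _ _ v)) h2).1 H2
    refine (sat_congr φ a' fun y hy => ?_).1 h3
    exact (update_of_ne (by rintro rfl; exact hx hy) _ _).symm
  | refl t => rfl
  | leib x s t φ hφ =>
    intro H
    rw [sat_eq] at H
    cases φ with
    | bot => exact hφ.elim
    | eq s' t' => simp only [Fm.subst, sat_imp, sat_eq, ev_subst, H]; exact id
    | rel k n ts => exact id
    | imp _ _ => exact hφ.elim
    | all _ _ => exact hφ.elim

/-- Soundness for proofs all of whose lines are shorter than the width bound. -/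
theorem sound {A p : List Fm} (hp : IsProof A p) (hlen : ∀ φ ∈ p, 16 * wd φ < P.m)
    (hA : ∀ φ ∈ A, φ ∈ p → P.Valid φ) : ∀ φ ∈ p, P.Valid φ := by
  induction hp with
  | nil => intro φ h; cases h
  | logic p a _ ha ih =>
    intro φ h
    rcases List.mem_cons.1 h with rfl | h
    · exact valid_logAx ha (hlen _ List.mem_cons_self)
    · exact ih (fun ψ h => hlen ψ (List.mem_cons_of_mem _ h))
        (fun ψ h h' => hA ψ h (List.mem_cons_of_mem _ h')) φ h
  | ax p a _ ha ih =>
    intro φ h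
    rcases List.mem_cons.1 h with rfl | h
    · exact hA _ ha List.mem_cons_self
    · exact ih (fun ψ h => hlen ψ (List.mem_cons_of_mem _ h))
        (fun ψ h h' => hA ψ h (List.mem_cons_of_mem _ h')) φ h
  | mp p a b _ ha hab ih =>
    intro φ h
    have ih' := ih (fun ψ h => hlen ψ (List.mem_cons_of_mem _ h))
      (fun ψ h h' => hA ψ h (List.mem_cons_of_mem _ h'))
    rcases List.mem_cons.1 h with rfl | h
    · exact valid_mp (ih' _ ha) (ih' _ hab) (hlen _ (List.mem_cons_of_mem _ hab))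
    · exact ih' φ h
  | gen p x a _ ha ih =>
    intro φ h
    have ih' := ih (fun ψ h => hlen ψ (List.mem_cons_of_mem _ h))
      (fun ψ h h' => hA ψ h (List.mem_cons_of_mem _ h'))
    rcases List.mem_cons.1 h with rfl | h
    · exact valid_all x (ih' _ ha)
    · exact ih' φ h

theorem not_valid_bot : ¬ P.Valid .bot := fun h =>
  h (fun _ => P.d0) P.a0 (by rw [Sf_closed (φ := .bot) (fun _ h => h)]; exact P.good_a0)

end PW

end Pool.Agent.MP_8ec908_lc.H65
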