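import Pool.Agent.MP_8ec908_lc.H18.Final
import Pool.Agent.MP_8ec908_lc.H9.Main
import Pool.Agent.MP_8ec908_lc.H19.Check
import Pool.Agent.MP_8ec908_lc.H78.Rules

/-! Translation of the whole language into the language of arithmetic. -/

namespace Pool.Agent.MP_8ec908_lc.H65

open Pool.Agent.MP_8ec908_lc.Defs Pool.Agent.MP_8ec908_lc.H18 Pool.Agent.MP_8ec908_lc.H78 Function

/-- Push a tag and the arguments on the stack `v_K`, fill it up and read it. -/
def stk (H K c : ℕ) (l : List Tm) : Tm :=
  mul zero ((add zero)^[H] (l.foldr add (add (num c) (.var K))))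

def trT (H K : ℕ) : Tm → Tm
  | .var i => .var i
  | .app k n ts =>
    if k = 0 ∧ n ≤ 2 ∨ k = 1 ∧ n = 2 then .app k n fun i => trT H K (ts i)
    else stk H K (if n = 2 then 0 else 1) (List.ofFn fun i => trT H K (ts i))

def trF (H K : ℕ) : Fm → Fm
  | .bot => .bot
  | .eq s t => .eq (trT H K s) (trT H K t)
  | .rel k n ts => .eq (stk H K (if n = 1 then min k 1 + 2 else 4)
      (List.ofFn fun i => trT H K (ts i))) (num 1)
  | .imp a b => .imp (trF H K a) (trF H K b)
  | .all x a => .all x (trF H K a)

variable {H K : ℕ}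

theorem occ_stk (c : ℕ) (l : List Tm) (x : ℕ) :
    (stk H K c l).Occ x ↔ K = x ∨ ∃ t ∈ l, t.Occ x := by
  have h1 : ∀ j (t : Tm), ((add zero)^[j] t).Occ x ↔ t.Occ x := by
    intro j t
    induction j with
    | zero => rfl
    | succ j ih => simp [iterate_succ_apply', ih]
  simp only [stk, H9.occ_mul, H9.occ_zero, false_or, h1]
  induction l with
  | nil => simp
  | cons t l ih => simp [ih, or_left_comm]

theorem subst_stk (c : ℕ) (l : List Tm) (x : ℕ) (u : Tm) {K' : ℕ}
    (h : (Tm.var K).subst x u = .var K') :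
    (stk H K c l).subst x u = stk H K' c (l.map fun t => t.subst x u) := by
  have h1 : ∀ j (t : Tm), ((add zero)^[j] t).subst x u = (add zero)^[j] (t.subst x u) := by
    intro j t
    induction j with
    | zero => rfl
    | succ j ih => simp [iterate_succ_apply', ih]
  simp only [stk, H9.subst_mul, H9.subst_zero, h1]
  congr 2
  induction l with
  | nil => simp only [List.foldr, List.map, H9.subst_add, H9.subst_num, h]
  | cons t l ih => simp only [List.foldr, List.map, H9.subst_add, ih]

theorem ar_stk (c : ℕ) {l : List Tm} (h : ∀ t ∈ l, ArT t) : ArT (stk H K c l) := by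
  refine .mul _ _ .zero ?_
  induction H with
  | zero =>
    induction l with
    | nil => exact .add _ _ (arT_num c) (.var K)
    | cons t l ih => exact .add _ _ (h t (by simp)) (ih fun t ht => h t (by simp [ht]))
  | succ j ih => rw [iterate_succ_apply']; exact .add _ _ .zero ih

theorem tz_stk (c : ℕ) (l : List Tm) :
    tz (stk H K c l) = 8 * H + K + 4 * c + 19 + 5 * l.length + (l.map tz).sum := by
  have h1 : ∀ j (t : Tm), tz ((add zero)^[j] t) = 8 * j + tz t := by
    intro j t
    induction j with
    | zero => simp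
    | succ j ih => simp [iterate_succ_apply', ih]; ring
  have h2 : tz (l.foldr add (add (num c) (.var K))) =
      K + 4 * c + 10 + 5 * l.length + (l.map tz).sum := by
    induction l with
    | nil => simp; ring
    | cons t l ih => simp [ih]; ring
  have h3 := mul_len zero ((add zero)^[H] (l.foldr add (add (num c) (.var K))))
  have h4 := h1 H (l.foldr add (add (num c) (.var K)))
  have h5 := tz_zero
  unfold tz at *
  unfold stk
  omega

theorem occ_trT {t : Tm} {x : ℕ} (h : (trT H K t).Occ x) : K = x ∨ t.Occ x := by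
  induction t with
  | var i => exact Or.inr h
  | app k n ts ih =>
    unfold trT at h
    split_ifs at h <;>
      first
      | (obtain ⟨i, hi⟩ := h; exact (ih i hi).imp id fun h => ⟨i, h⟩)
      | (rcases (occ_stk _ _ _).1 h with h | ⟨_, ht, h⟩
         · exact Or.inl h
         · obtain ⟨i, rfl⟩ := List.mem_ofFn.1 ht
           exact (ih i h).imp id fun h => ⟨i, h⟩)

theorem trT_occ {t : Tm} {x : ℕ} (h : t.Occ x) : (trT H K t).Occ x := by
  induction t with
  | var i => exact h
  | app k n ts ih =>
    obtain ⟨i, hi⟩ := h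
    unfold trT
    split_ifs <;>
      first
      | exact ⟨i, ih i hi⟩
      | exact (occ_stk _ _ _).2 (Or.inr ⟨_, List.mem_ofFn.2 ⟨i, rfl⟩, ih i hi⟩)

theorem free_trF {φ : Fm} {x : ℕ} (h : (trF H K φ).Free x) : K = x ∨ φ.Free x := by
  induction φ with
  | bot => exact h.elim
  | eq s t => exact h.elim (fun h => (occ_trT h).imp id Or.inl) fun h => (occ_trT h).imp id Or.inr
  | rel k n ts =>
    rcases h with h | h
    · rcases (occ_stk _ _ _).1 h with h | ⟨_, ht, h⟩
      · exact Or.inl h
      · obtain ⟨i, rfl⟩ := List.mem_ofFn.1 ht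
        exact (occ_trT h).imp id fun h => ⟨i, h⟩
    · exact (num_not_occ _ _ h).elim
  | imp a b ih1 ih2 => exact h.elim (fun h => (ih1 h).imp id Or.inl) fun h => (ih2 h).imp id Or.inr
  | all y a ih => exact (ih h.2).imp id fun h' => ⟨h.1, h'⟩

theorem trF_free {φ : Fm} {x : ℕ} (h : φ.Free x) : (trF H K φ).Free x := by
  induction φ with
  | bot => exact h
  | eq s t => exact h.imp trT_occ trT_occ
  | rel k n ts =>
    obtain ⟨i, hi⟩ := h
    exact Or.inl ((occ_stk _ _ _).2 (Or.inr ⟨_, List.mem_ofFn.2 ⟨i, rfl⟩, trT_occ hi⟩))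
  | imp a b ih1 ih2 => exact h.imp ih1 ih2
  | all y a ih => exact ⟨h.1, ih h.2⟩

theorem trT_subst {x : ℕ} (hx : K ≠ x) (u t : Tm) :
    trT H K (t.subst x u) = (trT H K t).subst x (trT H K u) := by
  induction t with
  | var i => by_cases h : i = x <;> simp [Tm.subst, trT, h]
  | app k n ts ih =>
    simp only [Tm.subst, trT, ih]
    split_ifs <;>
      first
      | rfl
      | rw [subst_stk _ _ _ _ (if_neg hx), List.map_ofFn]; rfl

theorem trF_subst {x : ℕ} (hx : K ≠ x) (u : Tm) (φ : Fm) :
    trF H K (φ.subst x u) = (trF H K φ).subst x (trT H K u) := by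
  induction φ with
  | bot => rfl
  | eq s t => simp only [Fm.subst, trF, trT_subst hx]
  | rel k n ts =>
    simp only [Fm.subst, trF, trT_subst hx, num_subst]
    rw [subst_stk _ _ _ _ (if_neg hx), List.map_ofFn]
    rfl
  | imp a b ih1 ih2 => simp only [Fm.subst, trF, ih1, ih2]
  | all y a ih =>
    simp only [Fm.subst, trF]
    split_ifs
    · rfl
    · simp only [trF, ih]

theorem trT_ren {t : Tm} (h : tz t ≤ K) (K' : ℕ) : (trT H K t).subst K (.var K') = trT H K' t := by
  induction t with
  | var i => exact if_neg (by simp at h; omega)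
  | app k n ts ih =>
    have h1 : ∀ i, (trT H K (ts i)).subst K (.var K') = trT H K' (ts i) := fun i => ih i (by
      have := Finset.single_le_sum (f := fun i => tz (ts i)) (fun _ _ => Nat.zero_le _)
        (Finset.mem_univ i)
      rw [tz_app] at h
      omega)
    simp only [trT]
    split_ifs <;>
      first
      | simp only [Tm.subst, h1]
      | rw [subst_stk _ _ _ _ (if_pos rfl), List.map_ofFn]; exact congrArg _ (congrArg _ (funext h1))

theorem trF_ren {φ : Fm} (h : sz φ ≤ K) (K' : ℕ) : (trF H K φ).subst K (.var K') = trF H K' φ := by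
  induction φ with
  | bot => rfl
  | eq s t =>
    rw [sz_eq] at h
    simp only [Fm.subst, trF, trT_ren (show tz s ≤ K by omega), trT_ren (show tz t ≤ K by omega)]
  | rel k n ts =>
    have h1 : ∀ i, (trT H K (ts i)).subst K (.var K') = trT H K' (ts i) := fun i => trT_ren (by
      have := Finset.single_le_sum (f := fun i => tz (ts i)) (fun _ _ => Nat.zero_le _)
        (Finset.mem_univ i)
      rw [sz_rel] at h
      omega) K'
    simp only [Fm.subst, trF, num_subst]
    rw [subst_stk _ _ _ _ (if_pos rfl), List.map_ofFn]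
    exact congrArg (Fm.eq · _) (congrArg _ (congrArg _ (funext h1)))
  | imp a b ih1 ih2 =>
    rw [sz_imp] at h
    simp only [Fm.subst, trF, ih1 (by omega), ih2 (by omega)]
  | all y a ih =>
    rw [sz_all] at h
    simp only [Fm.subst, trF, ih (by omega), if_neg (show y ≠ K by omega)]

theorem trF_freeFor_var {φ : Fm} {K' : ℕ} (h : sz φ ≤ K') (x : ℕ) :
    (trF H K φ).FreeFor x (.var K') := by
  induction φ with
  | imp a b ih1 ih2 => rw [sz_imp] at h; exact ⟨ih1 (by omega), ih2 (by omega)⟩
  | all y a ih =>
    rw [sz_all] at h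
    exact Or.inr ⟨fun h' : K' = y => by omega, ih (by omega)⟩
  | _ => trivial

theorem trF_freeFor {φ : Fm} {x : ℕ} {u : Tm} (hx : K ≠ x) (h : sz φ ≤ K) (hf : φ.FreeFor x u) :
    (trF H K φ).FreeFor x (trT H K u) := by
  induction φ with
  | imp a b ih1 ih2 => rw [sz_imp] at h; exact ⟨ih1 (by omega) hf.1, ih2 (by omega) hf.2⟩
  | all y a ih =>
    rw [sz_all] at h
    exact hf.imp (fun h1 h2 => (free_trF (φ := .all y a) h2).elim hx h1) fun h1 =>
      ⟨fun h2 => (occ_trT h2).elim (by omega) h1.1, ih (by omega) h1.2⟩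
  | _ => trivial

theorem logAx_trF {φ : Fm} (h : LogAx φ) (hK : sz φ ≤ K) : LogAx (trF H K φ) := by
  cases h with
  | k a b => exact .k _ _
  | s a b c => exact .s _ _ _
  | dn a => exact .dn _
  | inst x u a hf =>
    simp only [sz_imp, sz_all] at hK
    simp only [trF, trF_subst (show K ≠ x by omega)]
    exact .inst _ _ _ (trF_freeFor (by omega) (by omega) hf)
  | dist x a b hx =>
    simp only [sz_imp, sz_all] at hK
    exact .dist _ _ _ fun h => (free_trF h).elim (by omega) hx
  | refl t => exact .refl _
  | leib x s t a ha =>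
    simp only [sz_imp] at hK
    obtain ⟨a', h1, -, h2⟩ := H19.atomic_rename x s a ha (K + 1) (by unfold sz at hK; omega)
    simp only [← h2, trF, trF_subst (Nat.succ_ne_self K).symm]
    refine .leib _ _ _ _ ?_
    cases a' <;> exact h1

theorem rank_trF (φ : Fm) : (trF H K φ).rank = φ.rank := by
  induction φ with
  | imp a b ih1 ih2 => simp only [trF, Fm.rank, ih1, ih2]
  | all y a ih => simp only [trF, Fm.rank, ih]
  | _ => rfl

theorem ar_trT (t : Tm) : ArT (trT H K t) := by
  induction t with
  | var i => exact .var i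
  | app k n ts ih =>
    have h1 : ∀ c, ArT (stk H K c (List.ofFn fun i => trT H K (ts i))) := fun c =>
      ar_stk c fun t ht => by obtain ⟨i, rfl⟩ := List.mem_ofFn.1 ht; exact ih i
    unfold trT
    split_ifs with h
    · rcases h with ⟨rfl, h⟩ | ⟨rfl, rfl⟩
      · interval_cases n
        · convert ArT.zero using 1
          exact congrArg _ (funext fun i => i.elim0)
        · convert ArT.succ _ (ih 0) using 1
          exact congrArg _ (funext fun i => by fin_cases i; rfl)
        · convert ArT.add _ _ (ih 0) (ih 1) using 1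
          exact congrArg _ (funext fun i => by fin_cases i <;> rfl)
      · convert ArT.mul _ _ (ih 0) (ih 1) using 1
        exact congrArg _ (funext fun i => by fin_cases i <;> rfl)
    exacts [h1 _, h1 _]

theorem ar_trF (φ : Fm) : ArF (trF H K φ) := by
  induction φ with
  | bot => exact .bot
  | eq s t => exact .eq _ _ (ar_trT s) (ar_trT t)
  | rel k n ts =>
    exact .eq _ _ (ar_stk _ fun t ht => by obtain ⟨i, rfl⟩ := List.mem_ofFn.1 ht; exact ar_trT _)
      (arT_num 1)
  | imp a b ih1 ih2 => exact .imp _ _ ih1 ih2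
  | all y a ih => exact .all _ _ ih

theorem trT_zero : trT H K zero = zero := by
  simp only [zero, trT, true_and, Nat.zero_le, true_or, if_true]
  congr 1; funext i; exact i.elim0

theorem trT_succ (t : Tm) : trT H K (succ t) = succ (trT H K t) := by
  simp only [succ, trT, true_and, Nat.one_le_ofNat, true_or, if_true]
  congr 1; funext i; fin_cases i; rfl

theorem trT_add (s t : Tm) : trT H K (add s t) = add (trT H K s) (trT H K t) := by
  simp only [add, trT, true_and, le_refl, true_or, if_true]
  congr 1; funext i; fin_cases i <;> rfl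

theorem trT_mul (s t : Tm) : trT H K (mul s t) = mul (trT H K s) (trT H K t) := by
  simp only [mul, trT, true_and, or_true, if_true]
  congr 1; funext i; fin_cases i <;> rfl

theorem trT_ar {t : Tm} (h : ArT t) : trT H K t = t := by
  induction h with
  | var i => rfl
  | zero => exact trT_zero
  | succ t _ ih => rw [trT_succ, ih]
  | add s t _ _ ih1 ih2 => rw [trT_add, ih1, ih2]
  | mul s t _ _ ih1 ih2 => rw [trT_mul, ih1, ih2]

theorem trF_ar {φ : Fm} (h : ArF φ) : trF H K φ = φ := by
  induction h with
  | bot => rfl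
  | eq s t hs ht => rw [trF, trT_ar hs, trT_ar ht]
  | imp a b _ _ ih1 ih2 => rw [trF, ih1, ih2]
  | all y a _ ih => rw [trF, ih]

theorem tz_trT (t : Tm) : tz (trT H K t) ≤ (8 * H + K + 20) * tz t := by
  induction t with
  | var i => exact Nat.le_mul_of_pos_left _ (by omega)
  | app k n ts ih =>
    have h1 : ∑ i, tz (trT H K (ts i)) ≤ (8 * H + K + 20) * ∑ i, tz (ts i) := by
      rw [Finset.mul_sum]
      exact Finset.sum_le_sum fun i _ => ih i
    unfold trT
    split_ifs <;>
      simp only [tz_app, tz_stk, List.map_ofFn, List.sum_ofFn, List.length_ofFn, comp] <;>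
      nlinarith [Nat.zero_le (H * k), Nat.zero_le (H * n), Nat.zero_le (K * k), Nat.zero_le (K * n)]

theorem sz_trF (φ : Fm) : sz (trF H K φ) ≤ (8 * H + K + 20) * sz φ := by
  induction φ with
  | bot => exact Nat.le_mul_of_pos_left _ (by omega)
  | eq s t =>
    simp only [trF, sz_eq]
    nlinarith [tz_trT (H := H) (K := K) s, tz_trT (H := H) (K := K) t]
  | rel k n ts =>
    have h1 : ∑ i, tz (trT H K (ts i)) ≤ (8 * H + K + 20) * ∑ i, tz (ts i) := by
      rw [Finset.mul_sum]
      exact Finset.sum_le_sum fun i _ => tz_trT _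
    have h2 : (if n = 1 then min k 1 + 2 else 4) ≤ 4 := by split_ifs <;> omega
    simp only [trF, sz_eq, sz_rel, tz_stk, tz_num, List.map_ofFn, List.sum_ofFn, List.length_ofFn,
      comp]
    nlinarith [Nat.zero_le (H * k), Nat.zero_le (H * n), Nat.zero_le (K * k), Nat.zero_le (K * n)]
  | imp a b ih1 ih2 => simp only [trF, sz_imp]; nlinarith
  | all y a ih => simp only [trF, sz_all]; nlinarith

theorem isProof_trF {A p : List Fm} (hp : IsProof A p) (hK : ∀ b ∈ p, sz b ≤ K) :
    IsProof (A.map (trF H K)) (p.map (trF H K)) := by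
  induction hp with
  | nil => exact .nil
  | logic p a _ ha ih =>
    exact .logic _ _ (ih fun b hb => hK b (by simp [hb])) (logAx_trF ha (hK a (by simp)))
  | ax p a _ ha ih => exact .ax _ _ (ih fun b hb => hK b (by simp [hb])) (List.mem_map_of_mem ha)
  | mp p a b _ ha hb ih =>
    exact .mp _ _ _ (ih fun b hb => hK b (by simp [hb])) (List.mem_map_of_mem ha)
      (List.mem_map_of_mem hb)
  | gen p x a _ ha ih =>
    exact .gen _ x _ (ih fun b hb => hK b (by simp [hb])) (List.mem_map_of_mem ha)

theorem sz_le_len {p : List Fm} {b : Fm} (h : b ∈ p) : sz b ≤ len p :=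
  List.single_le_sum (fun _ _ => Nat.zero_le _) _
    (List.mem_map_of_mem (f := fun a : Fm => a.str.length) h)

/-- A proof from arithmetic formulas can be replaced by one with arithmetic lines. -/
theorem arith_proof {A p : List Fm} (hp : IsProof A p) (hA : ∀ a ∈ A, ArF a) :
    ∃ f : Fm → Fm, IsProof A (p.map f) ∧ (∀ b, ArF (f b) ∧ (f b).rank = b.rank) ∧
      (∀ b, ArF b → f b = b) ∧ len (p.map f) ≤ (len p + 20) * len p := by
  refine ⟨trF 0 (len p), ?_, fun b => ⟨ar_trF b, rank_trF b⟩, fun b => trF_ar, ?_⟩
  · have := isProof_trF (H := 0) hp fun b => sz_le_len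
    rwa [List.map_congr_left fun a ha => trF_ar (hA a ha), List.map_id'] at this
  · suffices ∀ K (q : List Fm), len (q.map (trF 0 K)) ≤ (K + 20) * len q from this _ _
    intro K q
    induction q with
    | nil => simp [len]
    | cons a q ih =>
      have := sz_trF (H := 0) (K := K) a
      rw [List.map_cons, H78.len_cons, H78.len_cons]
      nlinarith

end Pool.Agent.MP_8ec908_lc.H65
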