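import Pool.Agent.MP_8ec908_lc.H65.Model
import Pool.Agent.MP_8ec908_lc.H65.Tr

/-! The translated axioms are valid in the pseudo-model. -/

namespace Pool.Agent.MP_8ec908_lc.H65

open Pool.Agent.MP_8ec908_lc.Defs Pool.Agent.MP_8ec908_lc.H47 Pool.Agent.MP_8ec908_lc.H78
  Function Sum

/-- The empty stack. -/
def e0 {U : Type} : El U := inr (fun _ => none, 0)

/-- The entry of an element, with default value `0`. -/
def pj {U : Type} (x : El U) : ℕ ⊕ U := gv (pr x)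

/-- The element is a number. -/
def IsE {U : Type} (x : El U) : Prop := ∃ n, x = inl (inl n)

theorem pj_inl {U : Type} (x : ℕ ⊕ U) : pj (inl x : El U) = x := rfl

theorem dS_num {U : Type} (n : ℕ) : dS (inl (inl n) : El U) = inl (inl (n + 1)) := rfl

theorem pr_eq {U : Type} (x : El U) (n : ℕ) : pr x = some (inl n) ↔ x = inl (inl n) := by
  cases x <;> simp [pr]

theorem ev_stk {U : Type} {H K : ℕ} (hH : 9 < H) (β : Core U → ℕ) {v : ℕ → El U} (hv : v K = e0)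
    (c : ℕ) (l : List Tm) (hl : l.length ≤ 8) :
    ∃ f : Core U, H18.ev (MM H β) v (stk H K c l) = inl (inl (β f)) ∧ ∀ j : Fin 9, j ≤ l.length →
      f j = ((l.map fun t => pr (H18.ev (MM H β) v t)) ++ [some (inl c)]).reverse.getD j none := by
  have h1 : ∃ f : Core U, H18.ev (MM H β) v (l.foldr add (add (num c) (.var K))) =
      inr (f, l.length + 1) ∧ ∀ j : Fin 9, j ≤ l.length → f j =
      ((l.map fun t => pr (H18.ev (MM H β) v t)) ++ [some (inl c)]).reverse.getD j none := by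
    induction l with
    | nil =>
      refine ⟨(push H (some (inl c)) (fun _ => none, 0)).1, ?_, fun j hj => ?_⟩
      · rw [List.foldr_nil, mm_add, H18.ev_num _ (mm_std H β)]
        show dAdd H _ (v K) = _
        rw [hv]
        exact congrArg inr (Prod.ext rfl (if_pos (show 0 < H by omega)))
      · rw [show j = 0 by simpa using hj]; rfl
    | cons t l ih =>
      rw [List.length_cons] at hl
      obtain ⟨f, h1, h2⟩ := ih (by omega)
      refine ⟨(push H (pr (H18.ev (MM H β) v t)) (f, l.length + 1)).1, ?_, fun j hj => ?_⟩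
      · rw [List.foldr_cons, mm_add, h1]
        exact congrArg inr (Prod.ext rfl (if_pos (show l.length + 1 < H by omega)))
      · simp only [push, List.map_cons, List.cons_append, List.reverse_cons]
        split_ifs with h
        · rw [List.getD_append_right _ _ _ _ (by simp [h])]
          simp [h]
        · rw [List.length_cons] at hj
          rw [List.getD_append _ _ _ _ (by simp; omega), h2 j (by omega)]
  obtain ⟨f, h1, h2⟩ := h1
  have h3 : ∀ j (t : Tm), H18.ev (MM H β) v t = inr (f, l.length + 1) → ∃ f' h',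
      H18.ev (MM H β) v ((add zero)^[j] t) = inr (f', h') ∧ min H j ≤ h' ∧ l.length < h' ∧
        ∀ i : Fin 9, i ≤ l.length → f' i = f i := by
    intro j t ht
    induction j with
    | zero => exact ⟨_, _, ht, by omega, by omega, fun _ _ => rfl⟩
    | succ j ih =>
      obtain ⟨f', h', h3, h4, h5, h6⟩ := ih
      refine ⟨_, _, by rw [iterate_succ_apply', mm_add, h3]; rfl, ?_, ?_, fun i hi => ?_⟩
      · simp only; split_ifs <;> omega
      · simp only; split_ifs <;> omega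
      · exact (if_neg (by simp only; omega)).trans (h6 i hi)
  obtain ⟨f', h', h3, h4, -, h6⟩ := h3 H _ h1
  refine ⟨f', ?_, fun j hj => (h6 j hj).trans (h2 j hj)⟩
  rw [stk, mm_mul, h3]
  exact congrArg (fun x => inl (inl x)) (if_pos (by simpa using h4))

section
variable (H K n1 : ℕ)

/-- Value of a translated term. -/
noncomputable def EV (v : ℕ → El (UU (2 * n1 + 1))) (a : Co) (t : Tm) : El (UU (2 * n1 + 1)) :=
  H18.ev (MM H (βa n1 a)) v (trT H K t)

/-- Satisfaction of a translated formula. -/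
def SA (φ : Fm) (v : ℕ → El (UU (2 * n1 + 1))) (a : Co) : Prop := (PX H n1).Sat (trF H K φ) v a

/-- Validity of a translated formula when `v_K` is the empty stack. -/
def VK (φ : Fm) : Prop := ∀ v : ℕ → El (UU (2 * n1 + 1)), v K = e0 → ∀ a S,
  (∀ x, φ.Free x → suppE (v x) ⊆ S) → GoodC S a → SA H K n1 φ v a

variable {H K n1} {v : ℕ → El (UU (2 * n1 + 1))} {a : Co}

theorem EV_vr (i : ℕ) : EV H K n1 v a (vr i) = v i := rfl
theorem EV_zero : EV H K n1 v a zero = inl (inl 0) := by rw [EV, trT_zero]; rfl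
theorem EV_succ (t : Tm) : EV H K n1 v a (succ t) = dS (EV H K n1 v a t) := by
  rw [EV, trT_succ]; rfl
theorem EV_add (s t : Tm) : EV H K n1 v a (add s t) = dAdd H (EV H K n1 v a s) (EV H K n1 v a t) := by
  rw [EV, trT_add]; rfl
theorem EV_mul (s t : Tm) : EV H K n1 v a (mul s t) =
    dMul H (βa n1 a) (EV H K n1 v a s) (EV H K n1 v a t) := by
  rw [EV, trT_mul]; rfl
theorem EV_num (n : ℕ) : EV H K n1 v a (num n) = inl (inl n) := by
  rw [EV, trT_ar (H18.arT_num n), H18.ev_num _ (mm_std _ _)]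
theorem SA_eq (s t : Tm) : SA H K n1 (.eq s t) v a ↔ EV H K n1 v a s = EV H K n1 v a t := by
  rw [SA, trF, PW.sat_eq, PX_ev, PX_ev]
  rfl
theorem SA_imp (φ ψ : Fm) : SA H K n1 (.imp φ ψ) v a ↔ (SA H K n1 φ v a → SA H K n1 ψ v a) :=
  Iff.rfl
theorem SA_neg (φ : Fm) : SA H K n1 (neg φ) v a ↔ ¬ SA H K n1 φ v a := Iff.rfl

theorem vk_alls (xs : List ℕ) (hx : ∀ x ∈ xs, x < K) {φ : Fm} (h : VK H K n1 φ) :
    VK H K n1 (alls xs φ) := by
  induction xs with
  | nil => exact h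
  | cons x xs ih =>
    intro v hv a S _ _ d a' hg _
    refine ih (fun y hy => hx y (by simp [hy])) _ ?_ a' _ (fun y hy e he => ?_) hg
    · rwa [update_of_ne (hx x (by simp)).ne']
    · exact PW.Sf_update (P := PX H n1) x _ v d ⟨y, trF_free hy, he⟩

variable (hH : 9 < H) (hv : v K = e0)
include hH hv

theorem EV_xor (s t : Tm) : EV H K n1 v a (xor s t) =
    inl (inl (bit (pj (EV H K n1 v a s)) + bit (pj (EV H K n1 v a t))).val) := by
  obtain ⟨f, h1, h2⟩ := ev_stk hH (βa n1 a) hv 0 [trT H K s, trT H K t] (by simp)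
  have h0 : f 0 = some (inl 0) := h2 0 (by simp)
  refine h1.trans ?_
  rw [βa, if_pos h0, h2 1 (by simp), h2 2 (by simp)]
  rfl

theorem EV_rho (d i j l x1 x2 x3 x4 : Tm) :
    EV H K n1 v a (rho d i j l x1 x2 x3 x4) = inl (inl (rhoZ (dir (pj (EV H K n1 v a d)))
      (ptD (pj (EV H K n1 v a i)) (pj (EV H K n1 v a j)) (pj (EV H K n1 v a l)))
      (pj (EV H K n1 v a x1)) (pj (EV H K n1 v a x2)) (pj (EV H K n1 v a x3))
      (pj (EV H K n1 v a x4)) a).val) := by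
  obtain ⟨f, h1, h2⟩ := ev_stk hH (βa n1 a) hv 1 [trT H K d, trT H K i, trT H K j, trT H K l,
    trT H K x1, trT H K x2, trT H K x3, trT H K x4] (by simp)
  have h0 : f 0 = some (inl 1) := h2 0 (by simp)
  refine h1.trans ?_
  rw [βa, if_neg (by simp [h0]), if_pos h0, h2 1 (by simp), h2 2 (by simp), h2 3 (by simp),
    h2 4 (by simp), h2 5 (by simp), h2 6 (by simp), h2 7 (by simp), h2 8 (by simp)]
  rfl

omit hH hv in
theorem sat_one {t : Tm} {p : Prop} (h : H18.ev (MM H (βa n1 a)) v t = inl (inl (ind p))) :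
    (PX H n1).Sat (.eq t (num 1)) v a ↔ p := by
  rw [PW.sat_eq, PX_ev, PX_ev, h, H18.ev_num _ (mm_std _ _)]
  exact ⟨fun h => (ind_eq p).1 (inl.inj (inl.inj h)), fun h => by rw [(ind_eq p).2 h]⟩

theorem SA_NatR (t : Tm) : SA H K n1 (NatR t) v a ↔ IsE (EV H K n1 v a t) := by
  obtain ⟨f, h1, h2⟩ := ev_stk hH (βa n1 a) hv 2 [trT H K t] (by simp)
  have h0 : f 0 = some (inl 2) := h2 0 (by simp)
  rw [βa, if_neg (by simp [h0]), if_neg (by simp [h0]), if_pos h0, h2 1 (by simp)] at h1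
  exact (sat_one h1).trans (exists_congr fun _ => pr_eq _ _)

theorem SA_Pe (t : Tm) : SA H K n1 (Pe t) v a ↔ ∀ x, EV H K n1 v a t = inl (inl x) → n1 ≤ x := by
  obtain ⟨f, h1, h2⟩ := ev_stk hH (βa n1 a) hv 3 [trT H K t] (by simp)
  have h0 : f 0 = some (inl 3) := h2 0 (by simp)
  rw [βa, if_neg (by simp [h0]), if_neg (by simp [h0]), if_neg (by simp [h0]), if_pos h0,
    h2 1 (by simp)] at h1
  exact (sat_one h1).trans (forall_congr' fun _ => imp_congr_left (pr_eq _ _))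

theorem SA_TT (d i j l u : Tm) : SA H K n1 (TT d i j l u) v a ↔
    IsE (EV H K n1 v a i) ∧ IsE (EV H K n1 v a j) ∧ IsE (EV H K n1 v a l) ∧
      proj (2 * n1 + 1) (dir (pj (EV H K n1 v a d))) (ptD (pj (EV H K n1 v a i))
        (pj (EV H K n1 v a j)) (pj (EV H K n1 v a l))) ∈ suppD (pj (EV H K n1 v a u)) := by
  obtain ⟨f, h1, h2⟩ := ev_stk hH (βa n1 a) hv 4 [trT H K d, trT H K i, trT H K j, trT H K l,
    trT H K u] (by simp)
  have h0 : f 0 = some (inl 4) := h2 0 (by simp)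
  rw [βa, if_neg (by simp [h0]), if_neg (by simp [h0]), if_neg (by simp [h0]),
    if_neg (by simp [h0]), h2 1 (by simp), h2 2 (by simp), h2 3 (by simp), h2 4 (by simp),
    h2 5 (by simp)] at h1
  exact (sat_one h1).trans (and_congr (exists_congr fun _ => pr_eq _ _) (and_congr
    (exists_congr fun _ => pr_eq _ _) (and_congr (exists_congr fun _ => pr_eq _ _) Iff.rfl)))

theorem SA_perHyp (φ : Fm) (h : v 1 = inl (inl (2 * n1 + 1)) → SA H K n1 φ v a) :
    SA H K n1 (perHyp φ) v a := by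
  simp only [perHyp, imps, List.foldr, SA_imp, SA_eq, SA_neg, SA_Pe hH hv, EV_vr, EV_succ, EV_add]
  intro h1 h2 h3
  apply h
  rw [h1]
  push Not at h2
  obtain ⟨x, hx, h2⟩ := h2
  rw [hx] at h3 ⊢
  have h4 := h3 _ rfl
  exact congrArg (fun x => inl (inl x)) (show x + 1 + (x + 1) + 1 = _ by omega)

omit hv in
theorem vk_cube (hK : 19 ≤ K) : VK H K n1 axCube := by
  refine vk_alls _ (by simp; omega) fun v hv a _ _ _ => ?_
  have d0 : dir (inl 0 : DD (2 * n1 + 1)) = 0 := rfl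
  have d1 : dir (inl 1 : DD (2 * n1 + 1)) = 1 := rfl
  have d2 : dir (inl 2 : DD (2 * n1 + 1)) = 2 := rfl
  simp only [cubeM, imps, List.foldr, SA_imp, SA_eq, SA_TT hH hv, EV_vr, EV_succ, EV_num,
    EV_xor hH hv, EV_rho hH hv, pj_inl, d0, d1, d2, bit_val]
  rintro ⟨⟨i, hi⟩, ⟨j, hj⟩, ⟨l, hl⟩, h7⟩
  simp only [hi, hj, hl, dS_num, pj_inl, ptD, getN_inl, Nat.cast_add, Nat.cast_one] at h7 ⊢
  rintro ⟨-, -, -, h8⟩ ⟨-, -, -, h9⟩ ⟨-, -, -, h10⟩ ⟨-, -, -, h11⟩ ⟨-, -, -, h12⟩ ⟨-, -, -, h13⟩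
    ⟨-, -, -, h14⟩ ⟨-, -, -, h15⟩ ⟨-, -, -, h16⟩ ⟨-, -, -, h17⟩ ⟨-, -, -, h18⟩ e4 e5 e6
  rw [e4, e5, e6]
  simp only [pj_inl, bit_val, bit_one]
  rw [rhoZ_0 _ _ _ _ _ _ _ a h12 h14 h16 h18, rhoZ_1 _ _ _ _ _ _ _ a h8 h10 h17 h18,
    rhoZ_2 _ _ _ _ _ _ _ a h9 h10 h13 h14, rhoZ_0 _ _ _ _ _ _ _ a h11 h13 h15 h17,
    rhoZ_1 _ _ _ _ _ _ _ a h7 h9 h15 h16, rhoZ_2 _ _ _ _ _ _ _ a h7 h8 h11 h12]
  congr 3
  push_cast
  have h2 : (2 : ZMod 2) = 0 := rfl
  linear_combination (a 0 (pt i j l) + a 0 (pt i (j + 1) l) + a 0 (pt i j (l + 1)) +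
    a 0 (pt i (j + 1) (l + 1)) + a 1 (pt i j l) + a 1 (pt (i + 1) j l) + a 1 (pt i j (l + 1)) +
    a 1 (pt (i + 1) j (l + 1)) + a 2 (pt i j l) + a 2 (pt (i + 1) j l) + a 2 (pt i (j + 1) l) +
    a 2 (pt (i + 1) (j + 1) l) + getB (pj (v 7)) + getB (pj (v 8)) + getB (pj (v 9)) +
    getB (pj (v 10)) + getB (pj (v 11)) + getB (pj (v 12)) + getB (pj (v 13)) + getB (pj (v 14)) +
    getB (pj (v 15)) + getB (pj (v 16)) + getB (pj (v 17)) + getB (pj (v 18)) + (l : ZMod 2)) * h2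

omit hv in
theorem vk_EX (hK : 19 ≤ K) (h0 : 8 ≤ n1) : VK H K n1 axEX := by
  refine vk_alls _ (by simp; omega) fun v hv a S _ hg => ?_
  simp only [imps, List.foldr, SA_imp, SA_NatR hH hv, EV_vr]
  rintro ⟨d, hd⟩ ⟨i, hi⟩ ⟨j, hj⟩ ⟨l, hl⟩
  have hS : (PX H n1).Sf (ex 4 (trF H K (TT (vr 0) (vr 1) (vr 2) (vr 3) (vr 4)))) v = ∅ := by
    refine Set.eq_empty_of_forall_notMem ?_
    rintro e ⟨x, hx, he⟩
    rw [H9.free_ex] at hx
    rcases free_trF hx.2 with rfl | h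
    · rw [hv] at he
      simp [PX, e0, suppE, suppC, gv] at he
      exact he
    · rw [free_TT] at h
      rcases h with rfl | rfl | rfl | rfl | rfl
      exacts [(hd ▸ he :), (hi ▸ he :), (hj ▸ he :), (hl ▸ he :), hx.1 rfl]
  refine PW.sat_ex (P := PX H n1) (inl (inr (proj (2 * n1 + 1) (dir (inl d : DD (2 * n1 + 1)))
    (ptD (inl i : DD (2 * n1 + 1)) (inl j) (inl l)), 0)))
    (hS ▸ (PX H n1).good_mono (Set.empty_subset S) hg) ?_ (PW.loc_of_sat fun a' => ?_)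
  · rw [hS, Set.encard_empty, zero_add]
    show (16 : ℕ∞) < ((2 * n1 + 1 : ℕ) : ℕ∞)
    exact_mod_cast (by omega)
  · refine (SA_TT hH (by rwa [update_of_ne (by omega)]) _ _ _ _ _).2 ?_
    simp [EV_vr, hd, hi, hj, hl, IsE, pj_inl]

omit hv in
theorem vk_Ax0 (hK : 19 ≤ K) (h0 : 8 ≤ n1) : ∀ b ∈ Ax0, VK H K n1 b := by
  intro b hb
  have sp : ∀ x : El (UU (2 * n1 + 1)), suppD (pj x) ⊆ suppE x := supp_pr
  simp only [Ax0, List.mem_cons, List.not_mem_nil, or_false] at hb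
  rcases hb with rfl | rfl | rfl | rfl | rfl | rfl | rfl | rfl | rfl | rfl | rfl | rfl | rfl |
    rfl | rfl | rfl
  · exact fun v hv a _ _ _ => (SA_NatR hH hv _).2 ⟨0, EV_zero⟩
  · refine vk_alls _ (by simp; omega) fun v hv a _ _ _ => ?_
    simp only [SA_imp, SA_NatR hH hv, EV_succ, EV_vr]
    rintro ⟨n, hn⟩
    exact ⟨n + 1, by rw [hn]; rfl⟩
  · exact vk_EX hH hK h0
  · refine vk_alls _ (by simp; omega) fun v hv a _ _ _ => ?_
    simp only [SA_eq, EV_xor hH hv, EV_vr, pj_inl, bit_val]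
    rw [add_left_comm]
  · refine vk_alls _ (by simp; omega) fun v hv a _ _ _ => ?_
    simp only [SA_eq, EV_xor hH hv, EV_vr, EV_zero, pj_inl, bit_val, bit_zero]
    rw [← add_assoc, z2]
  · refine vk_alls _ (by simp; omega) fun v hv a _ _ _ => ?_
    simp only [SA_eq, EV_xor hH hv, EV_vr, EV_zero, pj_inl, bit_val, bit_zero, zero_add]
  · intro v hv a _ _ _
    simp only [axX4, SA_eq, EV_xor hH hv, EV_zero]
    rfl
  · intro v hv a _ _ _
    simp only [axX5, SA_neg, SA_eq, EV_xor hH hv, EV_num, EV_zero, pj_inl, bit_zero, bit_one]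
    intro h
    exact absurd (inl.inj (inl.inj h)) (by decide)
  · exact vk_cube hH hK
  · intro v hv a _ _ _
    simp only [axP0, SA_neg, SA_Pe hH hv, EV_zero]
    intro h
    have := h 0 rfl
    omega
  · refine vk_alls _ (by simp; omega) fun v hv a _ _ _ => SA_perHyp hH hv _ fun h => ?_
    simp only [SA_imp, SA_TT hH hv, EV_vr, EV_zero, h, pj_inl, ptD, getN_inl]
    rintro ⟨-, h1, h2, h3⟩
    exact ⟨⟨_, rfl⟩, h1, h2, by rwa [pt_sh0, proj_shift]⟩
  · refine vk_alls _ (by simp; omega) fun v hv a _ _ _ => SA_perHyp hH hv _ fun h => ?_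
    simp only [SA_imp, SA_TT hH hv, EV_vr, EV_zero, h, pj_inl, ptD, getN_inl]
    rintro ⟨h1, -, h2, h3⟩
    exact ⟨h1, ⟨_, rfl⟩, h2, by rwa [pt_sh1, proj_shift]⟩
  · refine vk_alls _ (by simp; omega) fun v hv a _ _ _ => SA_perHyp hH hv _ fun h => ?_
    simp only [SA_imp, SA_TT hH hv, EV_vr, EV_zero, h, pj_inl, ptD, getN_inl]
    rintro ⟨h1, h2, -, h3⟩
    exact ⟨h1, h2, ⟨_, rfl⟩, by rwa [pt_sh2, proj_shift]⟩
  · refine vk_alls _ (by simp; omega) fun v hv a S hS hg => SA_perHyp hH hv _ fun h => ?_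
    simp only [SA_eq, EV_rho hH hv, EV_vr, EV_zero, h, pj_inl, ptD, getN_inl]
    rw [pt_sh0 (2 * n1 + 1), ← rhoZ_shift odd_per hg]
    · exact (sp _).trans (hS 5 (Or.inr (Or.inr (Or.inr (Or.inl ⟨4, rfl⟩)))))
    · exact (sp _).trans (hS 6 (Or.inr (Or.inr (Or.inr (Or.inl ⟨5, rfl⟩)))))
    · exact (sp _).trans (hS 7 (Or.inr (Or.inr (Or.inr (Or.inl ⟨6, rfl⟩)))))
    · exact (sp _).trans (hS 8 (Or.inr (Or.inr (Or.inr (Or.inl ⟨7, rfl⟩)))))
  · refine vk_alls _ (by simp; omega) fun v hv a S hS hg => SA_perHyp hH hv _ fun h => ?_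
    simp only [SA_eq, EV_rho hH hv, EV_vr, EV_zero, h, pj_inl, ptD, getN_inl]
    rw [pt_sh1 (2 * n1 + 1), ← rhoZ_shift odd_per hg]
    · exact (sp _).trans (hS 5 (Or.inr (Or.inr (Or.inr (Or.inl ⟨4, rfl⟩)))))
    · exact (sp _).trans (hS 6 (Or.inr (Or.inr (Or.inr (Or.inl ⟨5, rfl⟩)))))
    · exact (sp _).trans (hS 7 (Or.inr (Or.inr (Or.inr (Or.inl ⟨6, rfl⟩)))))
    · exact (sp _).trans (hS 8 (Or.inr (Or.inr (Or.inr (Or.inl ⟨7, rfl⟩)))))
  · refine vk_alls _ (by simp; omega) fun v hv a S hS hg => SA_perHyp hH hv _ fun h => ?_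
    simp only [SA_eq, EV_rho hH hv, EV_vr, EV_zero, h, pj_inl, ptD, getN_inl]
    rw [pt_sh2 (2 * n1 + 1), ← rhoZ_shift odd_per hg]
    · exact (sp _).trans (hS 5 (Or.inr (Or.inr (Or.inr (Or.inl ⟨4, rfl⟩)))))
    · exact (sp _).trans (hS 6 (Or.inr (Or.inr (Or.inr (Or.inl ⟨5, rfl⟩)))))
    · exact (sp _).trans (hS 7 (Or.inr (Or.inr (Or.inr (Or.inl ⟨6, rfl⟩)))))
    · exact (sp _).trans (hS 8 (Or.inr (Or.inr (Or.inr (Or.inl ⟨7, rfl⟩)))))

end

end Pool.Agent.MP_8ec908_lc.H65
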